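import Pool.Agent.H63.Star.Iface

/-!
# Ridge lemma (module C2 of MP_bd4439_gt)
-/

namespace Pool.Agent.H91.Star

open Set Filter Topology
open scoped RealInnerProductSpace Pointwise

variable {X : Type} [NormedAddCommGroup X] [InnerProductSpace ℝ X]

/-- The hypotheses of the ridge lemma. -/
structure Hyp (f : X → ℝ) (γ : X → X → ℝ) (ρ κ τ₀ : ℝ) : Prop where
  hf : Continuous f
  hρ : 0 < ρ
  hκ : 0 < κ
  hκ1 : κ ≤ 1
  hτ : 0 < τ₀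
  hc : ∀ p w, ‖p‖ < ρ → w ≠ 0 → ContinuousAt (fun q : X × X => γ q.1 q.2) (p, w)
  hh : ∀ p w (t : ℝ), ‖p‖ < ρ → w ≠ 0 → t ≠ 0 → γ p w = 0 → γ p (t • w) = 0
  hu : ∀ p w (t : ℝ), ‖p‖ < ρ → ‖p + t • w‖ < ρ → w ≠ 0 → t ≠ 0 → γ p w = 0 →
      γ (p + t • w) w ≠ 0
  hs : ∀ p w, ‖p‖ < ρ → w ≠ 0 → γ p w = 0 → ∀ δ > 0,
      (∃ τ : ℝ, |τ| < δ ∧ 0 < γ (p + τ • w) w) ∧ ∃ τ : ℝ, |τ| < δ ∧ γ (p + τ • w) w < 0
  hsim : ∀ p w, ‖p‖ < ρ → w ≠ 0 → γ p w = 0 → ∀ t τ : ℝ, 0 < t → 0 < τ → t * ‖w‖ ≤ τ₀ →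
      τ * ‖w‖ ≤ τ₀ →
      ∃ t' : ℝ, κ * τ ≤ t' ∧ t' ≤ τ ∧ (f (p + t' • w) - f p) / t' = (f (p + t • w) - f p) / t

/-- The function whose infimum is `P`. -/
noncomputable def FF (f : X → ℝ) (κ τ₀ : ℝ) (p w : X) (s : ℝ) : ℝ :=
  ‖w‖ * (f (p + (s / ‖w‖) • w) - f p) / max s (κ * τ₀)

/-- The lower quotient at `p` in the direction `w`. -/
noncomputable def P (f : X → ℝ) (κ τ₀ : ℝ) (p w : X) : ℝ :=
  sInf (FF f κ τ₀ p w '' Icc (κ * τ₀) τ₀)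

section

variable {f : X → ℝ} {γ : X → X → ℝ} {ρ κ τ₀ : ℝ}

lemma P_contOn (H : Hyp f γ ρ κ τ₀) :
    ContinuousOn (fun z : X × X => P f κ τ₀ z.1 z.2) {z | z.2 ≠ 0} := by
  rw [continuousOn_iff_continuous_domRestrict]
  have hpos : 0 < κ * τ₀ := mul_pos H.hκ H.hτ
  have hf := H.hf
  have := IsCompact.continuous_sInf (K := Icc (κ * τ₀) τ₀)
    (f := fun (z : {z : X × X | z.2 ≠ 0}) (s : ℝ) => FF f κ τ₀ z.1.1 z.1.2 s) isCompact_Icc ?_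
  · exact this
  · unfold Function.HasUncurry.uncurry
    simp only [Function.hasUncurryInduction, FF]
    have h1 : Continuous fun x : {z : X × X | z.2 ≠ 0} × ℝ => x.1.1.2 := by fun_prop
    have h2 : Continuous fun x : {z : X × X | z.2 ≠ 0} × ℝ => x.1.1.1 := by fun_prop
    have hn : ∀ x : {z : X × X | z.2 ≠ 0} × ℝ, ‖x.1.1.2‖ ≠ 0 := fun x => norm_ne_zero_iff.2 x.1.2
    refine Continuous.div ?_ (by fun_prop) ?_
    · refine (h1.norm).mul ((hf.comp ?_).sub (hf.comp h2))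
      exact h2.add ((continuous_snd.div h1.norm hn).smul h1)
    · intro x
      have : 0 < max x.2 (κ * τ₀) := lt_max_of_lt_right hpos
      exact this.ne'

lemma P_cont (H : Hyp f γ ρ κ τ₀) {p w : X} (hw : w ≠ 0) :
    ContinuousAt (fun z : X × X => P f κ τ₀ z.1 z.2) (p, w) := by
  refine (P_contOn H).continuousAt (IsOpen.mem_nhds ?_ hw)
  exact isOpen_ne_fun continuous_snd continuous_const

lemma FF_eq (H : Hyp f γ ρ κ τ₀) {p w : X} {s : ℝ} (hs : s ∈ Icc (κ * τ₀) τ₀) (hw : w ≠ 0) :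
    FF f κ τ₀ p w s = (f (p + (s / ‖w‖) • w) - f p) / (s / ‖w‖) := by
  have hpos : 0 < κ * τ₀ := mul_pos H.hκ H.hτ
  have hs0 : 0 < s := lt_of_lt_of_le hpos hs.1
  have hw0 : 0 < ‖w‖ := norm_pos_iff.2 hw
  unfold FF
  rw [max_eq_left hs.1]
  field_simp

lemma FF_contOn (H : Hyp f γ ρ κ τ₀) {p w : X} (hw : w ≠ 0) :
    Continuous (FF f κ τ₀ p w) := by
  have hpos : 0 < κ * τ₀ := mul_pos H.hκ H.hτ
  have hf := H.hf
  unfold FF
  refine Continuous.div ?_ (by fun_prop) ?_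
  · refine continuous_const.mul ((hf.comp ?_).sub continuous_const)
    fun_prop
  · intro x
    have : 0 < max x (κ * τ₀) := lt_max_of_lt_right hpos
    exact this.ne'

lemma Icc_ne (H : Hyp f γ ρ κ τ₀) : (Icc (κ * τ₀) τ₀).Nonempty := by
  refine nonempty_Icc.2 ?_
  have := H.hτ; have := H.hκ1; nlinarith

/-- Property (a). -/
lemma P_le (H : Hyp f γ ρ κ τ₀) {p w : X} (hp : ‖p‖ < ρ) (hw : w ≠ 0) (h0 : γ p w = 0) {t : ℝ}
    (ht : 0 < t) (htw : t * ‖w‖ ≤ τ₀) : P f κ τ₀ p w ≤ (f (p + t • w) - f p) / t := by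
  have hw0 : 0 < ‖w‖ := norm_pos_iff.2 hw
  obtain ⟨t', h1, h2, h3⟩ := H.hsim p w hp hw h0 t (τ₀ / ‖w‖) ht (div_pos H.hτ hw0) htw
    (by rw [div_mul_cancel₀ _ hw0.ne'])
  have hmem : t' * ‖w‖ ∈ Icc (κ * τ₀) τ₀ := by
    constructor
    · have := mul_le_mul_of_nonneg_right h1 hw0.le
      calc κ * τ₀ = κ * (τ₀ / ‖w‖) * ‖w‖ := by field_simp
        _ ≤ _ := this
    · have := mul_le_mul_of_nonneg_right h2 hw0.le
      rwa [div_mul_cancel₀ _ hw0.ne'] at this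
  rw [← h3]
  have h4 : FF f κ τ₀ p w (t' * ‖w‖) = (f (p + t' • w) - f p) / t' := by
    rw [FF_eq H hmem hw, mul_div_assoc, div_self hw0.ne', mul_one]
  rw [← h4]
  exact csInf_le (isCompact_Icc.bddBelow_image (FF_contOn H hw).continuousOn)
    (mem_image_of_mem _ hmem)

/-- Property (b). -/
lemma P_attained (H : Hyp f γ ρ κ τ₀) {p w : X} (hp : ‖p‖ < ρ) (hw : w ≠ 0) (h0 : γ p w = 0)
    {τ : ℝ} (hτ : 0 < τ) (hτw : τ * ‖w‖ ≤ τ₀) :
    ∃ t : ℝ, κ * τ ≤ t ∧ t ≤ τ ∧ (f (p + t • w) - f p) / t = P f κ τ₀ p w := by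
  have hw0 : 0 < ‖w‖ := norm_pos_iff.2 hw
  obtain ⟨s, hs, hs'⟩ := isCompact_Icc.exists_sInf_image_eq (Icc_ne H)
    (FF_contOn (f := f) (κ := κ) (τ₀ := τ₀) H (p := p) hw).continuousOn
  have hpos : 0 < κ * τ₀ := mul_pos H.hκ H.hτ
  have hs0 : 0 < s := lt_of_lt_of_le hpos hs.1
  obtain ⟨t', h1, h2, h3⟩ := H.hsim p w hp hw h0 (s / ‖w‖) τ (div_pos hs0 hw0) hτ
    (by rw [div_mul_cancel₀ _ hw0.ne']; exact hs.2) hτw
  refine ⟨t', h1, h2, ?_⟩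
  rw [h3, ← FF_eq H hs hw]
  exact hs'.symm

lemma P_smul (H : Hyp f γ ρ κ τ₀) {p w : X} {c : ℝ} (hc : 0 < c) (hw : w ≠ 0) :
    P f κ τ₀ p (c • w) = c * P f κ τ₀ p w := by
  have hw0 : 0 < ‖w‖ := norm_pos_iff.2 hw
  have h1 : FF f κ τ₀ p (c • w) = fun s => c * FF f κ τ₀ p w s := by
    funext s
    unfold FF
    have : (s / ‖c • w‖) • c • w = (s / ‖w‖) • w := by
      rw [smul_smul, norm_smul, Real.norm_of_nonneg hc.le]
      congr 1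
      field_simp
    rw [this, norm_smul, Real.norm_of_nonneg hc.le]
    ring
  unfold P
  rw [h1]
  have h2 : (fun s => c * FF f κ τ₀ p w s) '' Icc (κ * τ₀) τ₀
      = c • (FF f κ τ₀ p w '' Icc (κ * τ₀) τ₀) := by
    ext x
    simp only [mem_image, Set.mem_smul_set, smul_eq_mul]
    constructor
    · rintro ⟨s, hs, rfl⟩
      exact ⟨_, ⟨s, hs, rfl⟩, rfl⟩
    · rintro ⟨_, ⟨s, hs, rfl⟩, rfl⟩
      exact ⟨s, hs, rfl⟩
  rw [h2, Real.sInf_smul_of_nonneg hc.le, smul_eq_mul]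

/-- `A = P(·, w) + P(·, -w)`. -/
noncomputable def AA (f : X → ℝ) (κ τ₀ : ℝ) (p w : X) : ℝ :=
  P f κ τ₀ p w + P f κ τ₀ p (-w)

lemma A_cont (H : Hyp f γ ρ κ τ₀) {p w : X} (hw : w ≠ 0) :
    ContinuousAt (fun z : X × X => AA f κ τ₀ z.1 z.2) (p, w) := by
  unfold AA
  refine (P_cont H hw).add ?_
  have h1 : ContinuousAt (fun z : X × X => P f κ τ₀ z.1 z.2) (p, -w) := P_cont H (neg_ne_zero.2 hw)
  have h2 : ContinuousAt (fun z : X × X => (z.1, -z.2)) (p, w) := by fun_prop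
  exact ContinuousAt.comp (f := fun z : X × X => (z.1, -z.2))
    (g := fun z : X × X => P f κ τ₀ z.1 z.2) h1 h2

lemma A_smul (H : Hyp f γ ρ κ τ₀) {p w : X} {c : ℝ} (hc : 0 < c) (hw : w ≠ 0) :
    AA f κ τ₀ p (c • w) = c * AA f κ τ₀ p w := by
  unfold AA
  rw [← smul_neg, P_smul H hc hw, P_smul H hc (neg_ne_zero.2 hw)]
  ring

lemma neg_centred (H : Hyp f γ ρ κ τ₀) {p w : X} (hp : ‖p‖ < ρ) (hw : w ≠ 0) (h0 : γ p w = 0) :
    γ p (-w) = 0 := by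
  have := H.hh p w (-1) hp hw (by norm_num) h0
  simpa using this

/-! ### Step 1 -/

lemma touch [FiniteDimensional ℝ X] (hf : Continuous f) (p₀ : X) {η : ℝ} (hη : 0 < η) :
    ∃ p n : X, ∃ N η' : ℝ, dist p p₀ < η ∧ 0 ≤ N ∧ 0 < η' ∧
      ∀ h : X, ‖h‖ < η' → f p + ⟪n, h⟫ - N * ‖h‖ ^ 2 ≤ f (p + h) := by
  have hK : IsCompact (Metric.closedBall p₀ (η / 2)) := isCompact_closedBall _ _
  obtain ⟨m, hm⟩ := (hK.image hf).bddBelow
  have hm' : ∀ x ∈ Metric.closedBall p₀ (η / 2), m ≤ f x := fun x hx => hm (mem_image_of_mem _ hx)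
  have hc : p₀ ∈ Metric.closedBall p₀ (η / 2) := Metric.mem_closedBall_self (by positivity)
  have hmp := hm' p₀ hc
  set N : ℝ := (f p₀ - m + 1) / (η / 2) ^ 2 with hN
  have hN0 : 0 < N := by rw [hN]; apply div_pos; linarith; positivity
  obtain ⟨p, hp, hpmin⟩ := hK.exists_isMinOn ⟨p₀, hc⟩
    (f := fun x => f x + N * ‖x - p₀‖ ^ 2) (by fun_prop)
  have hmin : ∀ x ∈ Metric.closedBall p₀ (η / 2), f p + N * ‖p - p₀‖ ^ 2 ≤ f x + N * ‖x - p₀‖ ^ 2 :=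
    fun x hx => hpmin hx
  have hpint : ‖p - p₀‖ < η / 2 := by
    by_contra hcon
    push Not at hcon
    have h1 := hmin p₀ hc
    simp only [sub_self, norm_zero] at h1
    have h2 := hm' p hp
    have h3 : N * (η / 2) ^ 2 ≤ N * ‖p - p₀‖ ^ 2 := by gcongr
    have h4 : N * (η / 2) ^ 2 = f p₀ - m + 1 := by rw [hN]; field_simp
    norm_num at h1
    linarith
  refine ⟨p, -(2 * N) • (p - p₀), N, η / 2 - ‖p - p₀‖, ?_, hN0.le, by linarith, ?_⟩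
  · rw [dist_eq_norm]; linarith
  · intro h hh
    have h1 := hmin (p + h) (by
      rw [Metric.mem_closedBall, dist_eq_norm]
      calc ‖p + h - p₀‖ = ‖(p - p₀) + h‖ := by congr 1; abel
        _ ≤ ‖p - p₀‖ + ‖h‖ := norm_add_le _ _
        _ ≤ η / 2 := by linarith)
    have h2 : ‖p + h - p₀‖ ^ 2 = ‖p - p₀‖ ^ 2 + 2 * ⟪p - p₀, h⟫ + ‖h‖ ^ 2 := by
      rw [show p + h - p₀ = (p - p₀) + h by abel]
      exact norm_add_sq_real _ _
    rw [h2] at h1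
    rw [inner_smul_left]
    simp only [conj_trivial]
    nlinarith

lemma P_ge_of_touch (H : Hyp f γ ρ κ τ₀) {p w n : X} {N η : ℝ} (hp : ‖p‖ < ρ) (hw : w ≠ 0)
    (h0 : γ p w = 0) (hN : 0 ≤ N) (hη : 0 < η)
    (ht : ∀ h : X, ‖h‖ < η → f p + ⟪n, h⟫ - N * ‖h‖ ^ 2 ≤ f (p + h)) :
    ⟪n, w⟫ ≤ P f κ τ₀ p w := by
  have hw0 : 0 < ‖w‖ := norm_pos_iff.2 hw
  refine le_of_forall_pos_le_add fun ε hε => ?_
  set τ : ℝ := min (τ₀ / ‖w‖) (min (η / (2 * ‖w‖)) (ε / ((N + 1) * ‖w‖ ^ 2))) with hτdef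
  have hτ : 0 < τ := by
    refine lt_min (div_pos H.hτ hw0) (lt_min (by positivity) (by positivity))
  have h1 : τ * ‖w‖ ≤ τ₀ := by
    have : τ ≤ τ₀ / ‖w‖ := min_le_left _ _
    rwa [le_div_iff₀ hw0] at this
  have h2 : τ * (2 * ‖w‖) ≤ η := by
    have : τ ≤ η / (2 * ‖w‖) := (min_le_right _ _).trans (min_le_left _ _)
    rwa [le_div_iff₀ (by positivity)] at this
  have h3 : τ * ((N + 1) * ‖w‖ ^ 2) ≤ ε := by
    have : τ ≤ ε / ((N + 1) * ‖w‖ ^ 2) := (min_le_right _ _).trans (min_le_right _ _)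
    rwa [le_div_iff₀ (by positivity)] at this
  obtain ⟨t, ht1, ht2, ht3⟩ := P_attained H hp hw h0 hτ h1
  have ht0 : 0 < t := lt_of_lt_of_le (mul_pos H.hκ hτ) ht1
  have h4 := ht (t • w) (by
    rw [norm_smul, Real.norm_of_nonneg ht0.le]
    have : t * ‖w‖ ≤ τ * ‖w‖ := by gcongr
    nlinarith)
  rw [norm_smul, Real.norm_of_nonneg ht0.le, inner_smul_right] at h4
  rw [← ht3]
  have h5 : ⟪n, w⟫ - N * t * ‖w‖ ^ 2 ≤ (f (p + t • w) - f p) / t := by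
    rw [le_div_iff₀ ht0]
    nlinarith
  have h6 : N * t * ‖w‖ ^ 2 ≤ ε := by
    have : N * t * ‖w‖ ^ 2 ≤ τ * ((N + 1) * ‖w‖ ^ 2) := by
      have h7 : t * (N * ‖w‖ ^ 2) ≤ τ * ((N + 1) * ‖w‖ ^ 2) := by
        apply mul_le_mul ht2 _ (by positivity) hτ.le
        gcongr; linarith
      nlinarith
    linarith
  linarith

lemma A_nonneg_of_touch (H : Hyp f γ ρ κ τ₀) {p w n : X} {N η : ℝ} (hp : ‖p‖ < ρ) (hw : w ≠ 0)
    (h0 : γ p w = 0) (hN : 0 ≤ N) (hη : 0 < η)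
    (ht : ∀ h : X, ‖h‖ < η → f p + ⟪n, h⟫ - N * ‖h‖ ^ 2 ≤ f (p + h)) :
    0 ≤ AA f κ τ₀ p w := by
  have h1 := P_ge_of_touch H hp hw h0 hN hη ht
  have h2 := P_ge_of_touch H hp (neg_ne_zero.2 hw) (neg_centred H hp hw h0) hN hη ht
  rw [inner_neg_right] at h2
  unfold AA
  linarith

lemma mul_neg_mem_uIcc {a b : ℝ} (h : a * b < 0) : (0 : ℝ) ∈ uIcc a b := by
  rw [mem_uIcc]
  rcases mul_neg_iff.1 h with ⟨h1, h2⟩ | ⟨h1, h2⟩
  · right; exact ⟨h2.le, h1.le⟩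
  · left; exact ⟨h1.le, h2.le⟩

lemma step1 [FiniteDimensional ℝ X] (H : Hyp f γ ρ κ τ₀) {q w : X} (hq : ‖q‖ < ρ) (hw : w ≠ 0)
    (h0 : γ q w = 0) (hA : AA f κ τ₀ q w < 0) : ∀ᶠ w' in 𝓝 w, γ q w' = 0 := by
  by_contra hcon
  have hfreq : ∃ᶠ w' in 𝓝 w, γ q w' ≠ 0 := Filter.not_eventually.1 hcon
  have hO : ∀ᶠ z : X × X in 𝓝 (q, w), ‖z.1‖ < ρ ∧ z.2 ≠ 0 ∧ AA f κ τ₀ z.1 z.2 < 0 := by
    have c1 : ContinuousAt (fun z : X × X => ‖z.1‖) (q, w) := by fun_prop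
    have c2 : ContinuousAt (fun z : X × X => z.2) (q, w) := by fun_prop
    refine (c1.eventually_lt continuousAt_const hq).and
      ((c2.eventually_ne hw).and ((A_cont H hw).eventually_lt continuousAt_const hA))
  obtain ⟨δ, hδ, hO⟩ := Metric.eventually_nhds_iff.1 hO
  have hO' : ∀ p w', dist p q < δ → dist w' w < δ → ‖p‖ < ρ ∧ w' ≠ 0 ∧ AA f κ τ₀ p w' < 0 := by
    intro p w' h1 h2
    exact hO (y := (p, w')) (by rw [Prod.dist_eq]; exact max_lt h1 h2)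
  obtain ⟨w1, hw1, hw1δ⟩ := (hfreq.and_eventually (Metric.ball_mem_nhds w hδ)).exists
  have hw1d : dist w1 w < δ := hw1δ
  have hw10 : w1 ≠ 0 := (hO' q w1 (by simpa using hδ) hw1d).2.1
  set s := γ q w1 with hs
  -- choose τ
  have hcont1 : ContinuousAt (fun τ : ℝ => γ (q + τ • w) w1 * s) 0 := by
    have h1 : ContinuousAt (fun z : X × X => γ z.1 z.2) ((fun τ : ℝ => (q + τ • w, w1)) 0) := by
      simpa using H.hc q w1 hq hw10
    have h2 : ContinuousAt (fun τ : ℝ => (q + τ • w, w1)) 0 := by fun_prop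
    exact (ContinuousAt.comp (f := fun τ : ℝ => (q + τ • w, w1))
      (g := fun z : X × X => γ z.1 z.2) h1 h2).mul continuousAt_const
  have hev1 : ∀ᶠ τ : ℝ in 𝓝 0, 0 < γ (q + τ • w) w1 * s := by
    refine continuousAt_const.eventually_lt hcont1 ?_
    simp only [zero_smul, add_zero]
    rw [← hs]
    exact mul_self_pos.2 hw1
  have hev2 : ∀ᶠ τ : ℝ in 𝓝 0, dist (q + τ • w) q < δ := by
    have h2 : ContinuousAt (fun τ : ℝ => dist (q + τ • w) q) 0 := by fun_prop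
    refine h2.eventually_lt continuousAt_const ?_
    simpa using hδ
  obtain ⟨δ', hδ', hev⟩ := Metric.eventually_nhds_iff.1 (hev1.and hev2)
  obtain ⟨⟨τ1, hτ1, hp1⟩, ⟨τ2, hτ2, hp2⟩⟩ := H.hs q w hq hw h0 δ' hδ'
  have hτ : ∃ τ : ℝ, |τ| < δ' ∧ γ (q + τ • w) w * s < 0 := by
    rcases lt_or_gt_of_ne hw1 with h | h
    · exact ⟨τ1, hτ1, mul_neg_of_pos_of_neg hp1 h⟩
    · exact ⟨τ2, hτ2, mul_neg_of_neg_of_pos hp2 h⟩
  obtain ⟨τ, hτ, hneg⟩ := hτ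
  obtain ⟨hpos, hd⟩ := hev (y := τ) (by rw [Real.dist_eq, sub_zero]; exact hτ)
  set p₀ := q + τ • w with hp₀
  have hprod : γ p₀ w * γ p₀ w1 < 0 := by
    have h1 : (γ p₀ w * s) * (γ p₀ w1 * s) < 0 := mul_neg_of_neg_of_pos hneg hpos
    have h2 : 0 < s * s := mul_self_pos.2 hw1
    by_contra hcon2
    push Not at hcon2
    nlinarith [mul_nonneg hcon2 h2.le]
  have hp₀ρ : ‖p₀‖ < ρ := (hO' p₀ w hd (by simpa using hδ)).1
  have hev3 : ∀ᶠ p in 𝓝 p₀, dist p q < δ ∧ γ p w * γ p w1 < 0 := by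
    have c0 : ContinuousAt (fun p : X => dist p q) p₀ := by fun_prop
    have c1 : ContinuousAt (fun p : X => γ p w) p₀ :=
      ContinuousAt.comp (f := fun p : X => (p, w)) (g := fun z : X × X => γ z.1 z.2)
        (H.hc p₀ w hp₀ρ hw) (by fun_prop)
    have c2 : ContinuousAt (fun p : X => γ p w1) p₀ :=
      ContinuousAt.comp (f := fun p : X => (p, w1)) (g := fun z : X × X => γ z.1 z.2)
        (H.hc p₀ w1 hp₀ρ hw10) (by fun_prop)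
    exact (c0.eventually_lt continuousAt_const hd).and
      ((c1.mul c2).eventually_lt continuousAt_const hprod)
  obtain ⟨η, hη, hev3⟩ := Metric.eventually_nhds_iff.1 hev3
  obtain ⟨p, n, N, η', hpd, hN, hη', htouch⟩ := touch H.hf p₀ hη
  obtain ⟨hpq, hpp⟩ := hev3 hpd
  -- IVT
  have hseg : ∀ θ ∈ uIcc (0 : ℝ) 1, dist (w + θ • (w1 - w)) w < δ := by
    intro θ hθ
    rw [uIcc_of_le zero_le_one] at hθ
    rw [dist_eq_norm, add_sub_cancel_left, norm_smul, Real.norm_of_nonneg hθ.1, ← dist_eq_norm]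
    calc θ * dist w1 w ≤ 1 * dist w1 w := by gcongr; exact hθ.2
      _ < δ := by rwa [one_mul]
  have hpρ : ‖p‖ < ρ := (hO' p w hpq (by simpa using hδ)).1
  have hcφ : ContinuousOn (fun θ : ℝ => γ p (w + θ • (w1 - w))) (uIcc 0 1) := by
    intro θ hθ
    have hne := (hO' p _ hpq (hseg θ hθ)).2.1
    exact (ContinuousAt.comp (f := fun θ : ℝ => (p, w + θ • (w1 - w)))
      (g := fun z : X × X => γ z.1 z.2) (H.hc p _ hpρ hne) (by fun_prop)).continuousWithinAt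
  have hmem := intermediate_value_uIcc hcφ (mul_neg_mem_uIcc (by simpa using hpp))
  obtain ⟨θ, hθ, hzero⟩ := hmem
  obtain ⟨_, hne, hAneg⟩ := hO' p _ hpq (hseg θ hθ)
  have := A_nonneg_of_touch H hpρ hne hzero hN hη' htouch
  linarith

/-! ### Steps 2, 3, 4 -/

lemma exists_first (G : ℝ → Prop) (h0 : G 0) (hopen : ∀ x, 0 ≤ x → G x → ∀ᶠ y in 𝓝 x, G y)
    (hne : ¬ ∀ x, 0 ≤ x → G x) : ∃ x₁ : ℝ, 0 < x₁ ∧ (∀ y, 0 ≤ y → y < x₁ → G y) ∧ ¬ G x₁ := by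
  set B : Set ℝ := {x | 0 ≤ x ∧ ¬ G x} with hB
  have hBne : B.Nonempty := by
    push Not at hne
    obtain ⟨x, hx, hx'⟩ := hne
    exact ⟨x, hx, hx'⟩
  have hBb : BddBelow B := ⟨0, fun x hx => hx.1⟩
  set x₁ := sInf B with hx₁
  have h1 : 0 ≤ x₁ := le_csInf hBne fun x hx => hx.1
  have h2 : ∀ y, 0 ≤ y → y < x₁ → G y := by
    intro y hy hy'
    by_contra hcon
    exact absurd (csInf_le hBb (show y ∈ B from ⟨hy, hcon⟩)) (not_le.2 hy')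
  have h3 : ¬ G x₁ := by
    intro hG
    obtain ⟨δ, hδ, hev⟩ := Metric.eventually_nhds_iff.1 (hopen x₁ h1 hG)
    obtain ⟨b, hb, hb'⟩ := exists_lt_of_csInf_lt hBne (show sInf B < x₁ + δ by linarith)
    have hb1 : x₁ ≤ b := csInf_le hBb hb
    exact hb.2 (hev (y := b) (by rw [Real.dist_eq, abs_of_nonneg (by linarith)]; linarith))
  refine ⟨x₁, lt_of_le_of_ne h1 ?_, h2, h3⟩
  intro h
  rw [← h] at h3
  exact h3 h0

/-- linear independence of the two directions -/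
lemma indep (H : Hyp f γ ρ κ τ₀) {w₀ w₁ : X} (hw₀ : w₀ ≠ 0) (hw₁ : w₁ ≠ 0) (h0 : γ 0 w₀ = 0)
    (h1 : γ 0 w₁ ≠ 0) {a b : ℝ} (hab : a • w₀ + b • w₁ = 0) : a = 0 ∧ b = 0 := by
  have h0ρ : ‖(0 : X)‖ < ρ := by simpa using H.hρ
  by_cases hb : b = 0
  · subst hb
    simp only [zero_smul, add_zero, smul_eq_zero] at hab
    exact ⟨hab.resolve_right hw₀, rfl⟩
  · exfalso
    have h2 : w₁ = (-(a / b)) • w₀ := by
      have h3 : b • w₁ = -(a • w₀) := by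
        rw [eq_neg_iff_add_eq_zero, add_comm]; exact hab
      have h4 : w₁ = b⁻¹ • (b • w₁) := by rw [smul_smul, inv_mul_cancel₀ hb, one_smul]
      rw [h4, h3, ← neg_smul, smul_smul]
      congr 1
      field_simp
    have h3 : -(a / b) ≠ 0 := by
      intro h
      rw [h, zero_smul] at h2
      exact hw₁ h2
    have h4 := H.hh 0 w₀ _ h0ρ hw₀ h3 h0
    rw [← h2] at h4
    exact h1 h4

lemma line_ne (H : Hyp f γ ρ κ τ₀) {w₀ w₁ : X} (hw₀ : w₀ ≠ 0) (hw₁ : w₁ ≠ 0) (h0 : γ 0 w₀ = 0)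
    (h1 : γ 0 w₁ ≠ 0) (x : ℝ) : w₀ + x • w₁ ≠ 0 := by
  intro h
  have := indep H hw₀ hw₁ h0 h1 (a := 1) (b := x) (by rw [one_smul]; exact h)
  exact one_ne_zero this.1

lemma step2 [FiniteDimensional ℝ X] (H : Hyp f γ ρ κ τ₀) {w₀ w₁ : X} (hw₀ : w₀ ≠ 0)
    (hw₁ : w₁ ≠ 0) (h0 : γ 0 w₀ = 0) (h1 : γ 0 w₁ ≠ 0) (hA : AA f κ τ₀ 0 w₀ < 0) :
    ∃ x₁ : ℝ, 0 < x₁ ∧ (∀ y, 0 ≤ y → y < x₁ → γ 0 (w₀ + y • w₁) = 0 ∧ AA f κ τ₀ 0 (w₀ + y • w₁) < 0) ∧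
      0 ≤ AA f κ τ₀ 0 (w₀ + x₁ • w₁) := by
  have h0ρ : ‖(0 : X)‖ < ρ := by simpa using H.hρ
  have hne := line_ne H hw₀ hw₁ h0 h1
  have hcA : ∀ x, ContinuousAt (fun x : ℝ => AA f κ τ₀ 0 (w₀ + x • w₁)) x := fun x =>
    ContinuousAt.comp (f := fun x : ℝ => ((0 : X), w₀ + x • w₁))
      (g := fun z : X × X => AA f κ τ₀ z.1 z.2) (A_cont H (hne x)) (by fun_prop)
  have hcγ : ∀ x, ContinuousAt (fun x : ℝ => γ 0 (w₀ + x • w₁)) x := fun x =>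
    ContinuousAt.comp (f := fun x : ℝ => ((0 : X), w₀ + x • w₁))
      (g := fun z : X × X => γ z.1 z.2) (H.hc 0 _ h0ρ (hne x)) (by fun_prop)
  have hopen : ∀ x : ℝ, 0 ≤ x → (γ 0 (w₀ + x • w₁) = 0 ∧ AA f κ τ₀ 0 (w₀ + x • w₁) < 0) →
      ∀ᶠ y in 𝓝 x, (γ 0 (w₀ + y • w₁) = 0 ∧ AA f κ τ₀ 0 (w₀ + y • w₁) < 0) := by
    intro x hx hG
    have h2 := step1 H h0ρ (hne x) hG.1 hG.2
    have h3 : ContinuousAt (fun x : ℝ => w₀ + x • w₁) x := by fun_prop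
    exact (h3.eventually h2).and ((hcA x).eventually_lt continuousAt_const hG.2)
  have hnall : ¬ ∀ x : ℝ, 0 ≤ x → (γ 0 (w₀ + x • w₁) = 0 ∧ AA f κ τ₀ 0 (w₀ + x • w₁) < 0) := by
    intro hall
    -- then w₁ is centred
    have h2 : Tendsto (fun n : ℕ => γ 0 (((1 : ℝ) / ((n : ℝ) + 1)) • w₀ + w₁)) atTop
        (𝓝 (γ 0 w₁)) := by
      have h3 : ContinuousAt (fun y : ℝ => γ 0 (y • w₀ + w₁)) 0 :=
        ContinuousAt.comp (f := fun y : ℝ => ((0 : X), y • w₀ + w₁))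
          (g := fun z : X × X => γ z.1 z.2) (by simpa using H.hc 0 w₁ h0ρ hw₁) (by fun_prop)
      have h4 := h3.tendsto.comp tendsto_one_div_add_atTop_nhds_zero_nat
      simpa [Function.comp_def] using h4
    have h5 : ∀ n : ℕ, γ 0 (((1 : ℝ) / ((n : ℝ) + 1)) • w₀ + w₁) = 0 := by
      intro n
      have hn : (0 : ℝ) < (n : ℝ) + 1 := by positivity
      have h6 := (hall ((n : ℝ) + 1) hn.le).1
      have h7 := H.hh 0 _ ((1 : ℝ) / ((n : ℝ) + 1)) h0ρ (hne ((n : ℝ) + 1)) (by positivity) h6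
      rw [smul_add, smul_smul, one_div_mul_cancel hn.ne', one_smul] at h7
      exact h7
    have h8 : Tendsto (fun n : ℕ => γ 0 (((1 : ℝ) / ((n : ℝ) + 1)) • w₀ + w₁)) atTop (𝓝 0) := by
      refine tendsto_const_nhds.congr ?_
      intro n; exact (h5 n).symm
    exact h1 (tendsto_nhds_unique h2 h8)
  obtain ⟨x₁, hx₁, hlt, hnot⟩ := exists_first
    (fun x => γ 0 (w₀ + x • w₁) = 0 ∧ AA f κ τ₀ 0 (w₀ + x • w₁) < 0)
    (by simpa using ⟨h0, hA⟩) hopen hnall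
  refine ⟨x₁, hx₁, hlt, ?_⟩
  by_contra hcon
  push Not at hcon
  refine hnot ⟨?_, hcon⟩
  -- γ vanishes at x₁ by continuity from the left
  have h2 : Tendsto (fun x : ℝ => γ 0 (w₀ + x • w₁)) (𝓝[<] x₁) (𝓝 (γ 0 (w₀ + x₁ • w₁))) :=
    (hcγ x₁).tendsto.mono_left nhdsWithin_le_nhds
  have h3 : Tendsto (fun x : ℝ => γ 0 (w₀ + x • w₁)) (𝓝[<] x₁) (𝓝 0) := by
    refine tendsto_const_nhds.congr' ?_
    have h4 : ∀ᶠ x in 𝓝[<] x₁, 0 < x :=
      eventually_nhdsWithin_of_eventually_nhds (lt_mem_nhds hx₁)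
    filter_upwards [h4, self_mem_nhdsWithin] with x hx hx'
    exact (hlt x hx.le hx').1.symm
  exact tendsto_nhds_unique h2 h3

lemma step3 (H : Hyp f γ ρ κ τ₀) {w₀ w₁ : X} (hw₀ : w₀ ≠ 0) (h0 : γ 0 w₀ = 0) {δ : ℝ}
    (hδ : 0 < δ) : ∃ β η : ℝ, |β| < δ ∧ 0 < η ∧ η < δ ∧ γ (β • w₀ + η • w₁) w₀ = 0 := by
  have h0ρ : ‖(0 : X)‖ < ρ := by simpa using H.hρ
  -- small enough so that the points stay in the ball
  have hO : ∀ᶠ z : ℝ × ℝ in 𝓝 (0, 0), ‖z.1 • w₀ + z.2 • w₁‖ < ρ := by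
    have c1 : ContinuousAt (fun z : ℝ × ℝ => ‖z.1 • w₀ + z.2 • w₁‖) (0, 0) := by fun_prop
    refine c1.eventually_lt continuousAt_const ?_
    simpa using H.hρ
  obtain ⟨δ₁, hδ₁, hO⟩ := Metric.eventually_nhds_iff.1 hO
  have hO' : ∀ β η : ℝ, |β| < δ₁ → |η| < δ₁ → ‖β • w₀ + η • w₁‖ < ρ := by
    intro β η h1 h2
    exact hO (y := (β, η)) (by
      rw [Prod.dist_eq]; simp only [Real.dist_eq, sub_zero]; exact max_lt h1 h2)
  obtain ⟨⟨τ1, hτ1, hp1⟩, ⟨τ2, hτ2, hp2⟩⟩ := H.hs 0 w₀ h0ρ hw₀ h0 (min δ δ₁) (lt_min hδ hδ₁)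
  rw [zero_add] at hp1 hp2
  have hc : ∀ β η : ℝ, |β| < δ₁ → |η| < δ₁ →
      ContinuousAt (fun z : ℝ × ℝ => γ (z.1 • w₀ + z.2 • w₁) w₀) (β, η) := fun β η h1 h2 =>
    ContinuousAt.comp (f := fun z : ℝ × ℝ => (z.1 • w₀ + z.2 • w₁, w₀))
      (g := fun z : X × X => γ z.1 z.2) (H.hc _ w₀ (hO' β η h1 h2) hw₀) (by fun_prop)
  have hc1 : ∀ τ : ℝ, |τ| < δ₁ → ContinuousAt (fun η : ℝ => γ (τ • w₀ + η • w₁) w₀) 0 :=
    fun τ hτ => ContinuousAt.comp (f := fun η : ℝ => (τ, η))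
      (g := fun z : ℝ × ℝ => γ (z.1 • w₀ + z.2 • w₁) w₀) (hc τ 0 hτ (by simpa using hδ₁))
      (by fun_prop)
  have e1 : ∀ᶠ η : ℝ in 𝓝 0, 0 < γ (τ1 • w₀ + η • w₁) w₀ :=
    continuousAt_const.eventually_lt (hc1 τ1 (hτ1.trans_le (min_le_right _ _)))
      (by simpa using hp1)
  have e2 : ∀ᶠ η : ℝ in 𝓝 0, γ (τ2 • w₀ + η • w₁) w₀ < 0 :=
    (hc1 τ2 (hτ2.trans_le (min_le_right _ _))).eventually_lt continuousAt_const
      (by simpa using hp2)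
  obtain ⟨δ₂, hδ₂, hev⟩ := Metric.eventually_nhds_iff.1 (e1.and e2)
  set η : ℝ := min (min δ δ₁) δ₂ / 2 with hη
  have hη0 : 0 < η := by rw [hη]; have := lt_min (lt_min hδ hδ₁) hδ₂; positivity
  have hη1 : η < min (min δ δ₁) δ₂ := by rw [hη]; have := lt_min (lt_min hδ hδ₁) hδ₂; linarith
  have hηδ : η < δ := hη1.trans_le ((min_le_left _ _).trans (min_le_left _ _))
  have hηδ₁ : η < δ₁ := hη1.trans_le ((min_le_left _ _).trans (min_le_right _ _))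
  have hηδ₂ : η < δ₂ := hη1.trans_le (min_le_right _ _)
  obtain ⟨hq1, hq2⟩ := hev (y := η) (by rw [Real.dist_eq, sub_zero, abs_of_pos hη0]; exact hηδ₂)
  have hbd : ∀ β ∈ uIcc τ1 τ2, |β| < min δ δ₁ := by
    intro β hβ
    rw [abs_lt] at hτ1 hτ2 ⊢
    rcases mem_uIcc.1 hβ with ⟨h1, h2⟩ | ⟨h1, h2⟩ <;> constructor <;> linarith [hτ1.1, hτ1.2, hτ2.1, hτ2.2]
  have hcon : ContinuousOn (fun β : ℝ => γ (β • w₀ + η • w₁) w₀) (uIcc τ1 τ2) := by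
    intro β hβ
    have := hc β η ((hbd β hβ).trans_le (min_le_right _ _)) (by rw [abs_of_pos hη0]; exact hηδ₁)
    exact (ContinuousAt.comp (f := fun β : ℝ => (β, η))
      (g := fun z : ℝ × ℝ => γ (z.1 • w₀ + z.2 • w₁) w₀) this (by fun_prop)).continuousWithinAt
  obtain ⟨β, hβ, hβ0⟩ := intermediate_value_uIcc hcon
    (mul_neg_mem_uIcc (mul_neg_of_pos_of_neg hq1 hq2))
  exact ⟨β, η, (hbd β hβ).trans_le (min_le_left _ _), hη0, hηδ, hβ0⟩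

lemma step4 [FiniteDimensional ℝ X] (H : Hyp f γ ρ κ τ₀) {w₀ w₁ : X} (hw₀ : w₀ ≠ 0)
    (hw₁ : w₁ ≠ 0) (h0 : γ 0 w₀ = 0) (h1 : γ 0 w₁ ≠ 0) {x₁ : ℝ}
    (hA : ∀ y, 0 ≤ y → y < x₁ → AA f κ τ₀ 0 (w₀ + y • w₁) < 0) {d : ℝ} (hd : d < x₁) :
    ∀ᶠ q in 𝓝 (0 : X), γ q w₀ = 0 → ∀ x ∈ Icc (0 : ℝ) d, γ q (w₀ + x • w₁) = 0 := by
  have h0ρ : ‖(0 : X)‖ < ρ := by simpa using H.hρ
  have hne := line_ne H hw₀ hw₁ h0 h1
  have e1 : ∀ᶠ q in 𝓝 (0 : X), ∀ x ∈ Icc (0 : ℝ) d, AA f κ τ₀ q (w₀ + x • w₁) < 0 := by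
    refine isCompact_Icc.eventually_forall_of_forall_eventually ?_
    intro x hx
    have hx' := hA x hx.1 (hx.2.trans_lt hd)
    have c1 : ContinuousAt (fun z : X × ℝ => AA f κ τ₀ z.1 (w₀ + z.2 • w₁)) (0, x) :=
      ContinuousAt.comp (f := fun z : X × ℝ => (z.1, w₀ + z.2 • w₁))
        (g := fun z : X × X => AA f κ τ₀ z.1 z.2) (A_cont H (hne x)) (by fun_prop)
    exact c1.eventually_lt continuousAt_const hx'
  have e2 : ∀ᶠ q in 𝓝 (0 : X), ‖q‖ < ρ := by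
    have : ContinuousAt (fun q : X => ‖q‖) 0 := by fun_prop
    exact this.eventually_lt continuousAt_const h0ρ
  filter_upwards [e1, e2] with q hq1 hq2 hq0
  have hcγ : Continuous (fun x : ℝ => γ q (w₀ + x • w₁)) := by
    rw [continuous_iff_continuousAt]
    intro x
    exact ContinuousAt.comp (f := fun x : ℝ => (q, w₀ + x • w₁))
      (g := fun z : X × X => γ z.1 z.2) (H.hc q _ hq2 (hne x)) (by fun_prop)
  rcases lt_or_ge d 0 with hd0 | hd0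
  · intro x hx; linarith [hx.1, hx.2]
  have key : Icc (0 : ℝ) d ⊆ {x | γ q (w₀ + x • w₁) = 0} := by
    refine IsClosed.Icc_subset_of_forall_mem_nhdsWithin ?_ ?_ ?_
    · exact (isClosed_eq hcγ continuous_const).inter isClosed_Icc
    · simpa using hq0
    · rintro x ⟨hx, hx'⟩
      have h2 := step1 H hq2 (hne x) hx (hq1 x ⟨hx'.1, hx'.2.le⟩)
      have h3 : ContinuousAt (fun x : ℝ => w₀ + x • w₁) x := by fun_prop
      exact mem_nhdsWithin_of_mem_nhds (h3.eventually h2)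
  exact fun x hx => key hx

/-! ### The general step 5 -/

lemma stepG (H : Hyp f γ ρ κ τ₀) (U : Ultrafilter ℕ) {a e : ℕ → X} {l : ℕ → ℝ} {e' w : X}
    (hl : ∀ j, 0 < l j) (hl0 : Tendsto l U (𝓝 0)) (he : Tendsto e U (𝓝 e')) (hw : w ≠ 0)
    (ha : ∀ᶠ j in (U : Filter ℕ), γ (a j) w = 0) (haρ : ∀ᶠ j in (U : Filter ℕ), ‖a j‖ < ρ)
    (hbρ : ∀ᶠ j in (U : Filter ℕ), ‖a j + l j • e j‖ < ρ) {ε : ℝ} (hε : 0 < ε)
    (hC : ∀ x ∈ Icc ε (ε / κ), ∀ h : ℕ → ℝ, Tendsto h U (𝓝 x) →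
      ∀ᶠ j in (U : Filter ℕ), γ (a j + l j • e j) (w - h j • e j) = 0 ∧ w - h j • e j ≠ 0) :
    ∃ x ∈ Icc ε (ε / κ), ∃ h : ℕ → ℝ, Tendsto h U (𝓝 x) ∧
      ∀ᶠ j in (U : Filter ℕ), P f κ τ₀ (a j + l j • e j) (w - h j • e j) ≤
        P f κ τ₀ (a j) w - h j * ((f (a j + l j • e j) - f (a j)) / l j) := by
  have hw0 : 0 < ‖w‖ := norm_pos_iff.2 hw
  have hκ := H.hκ
  -- choose t
  have hch : ∀ j, ∃ t : ℝ, κ * (l j / ε) ≤ t ∧ t ≤ l j / ε ∧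
      (γ (a j) w = 0 → ‖a j‖ < ρ → (l j / ε) * ‖w‖ ≤ τ₀ →
        (f (a j + t • w) - f (a j)) / t = P f κ τ₀ (a j) w) := by
    intro j
    by_cases hcond : γ (a j) w = 0 ∧ ‖a j‖ < ρ ∧ (l j / ε) * ‖w‖ ≤ τ₀
    · obtain ⟨t, h1, h2, h3⟩ := P_attained H hcond.2.1 hw hcond.1 (div_pos (hl j) hε) hcond.2.2
      exact ⟨t, h1, h2, fun _ _ _ => h3⟩
    · refine ⟨l j / ε, ?_, le_rfl, fun h1 h2 h3 => absurd ⟨h1, h2, h3⟩ hcond⟩
      have := div_pos (hl j) hε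
      have := H.hκ1
      nlinarith
  choose t ht1 ht2 ht3 using hch
  have ht0 : ∀ j, 0 < t j := fun j =>
    lt_of_lt_of_le (mul_pos hκ (div_pos (hl j) hε)) (ht1 j)
  set h : ℕ → ℝ := fun j => l j / t j with hh
  have hmem : ∀ j, h j ∈ Icc ε (ε / κ) := by
    intro j
    constructor
    · show ε ≤ l j / t j
      rw [le_div_iff₀ (ht0 j)]
      have := ht2 j
      rw [le_div_iff₀ hε] at this
      linarith
    · show l j / t j ≤ ε / κ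
      rw [div_le_div_iff₀ (ht0 j) hκ]
      have h1 := ht1 j
      have h2 : κ * (l j / ε) * ε = κ * l j := by field_simp
      have h3 := mul_le_mul_of_nonneg_right h1 hε.le
      rw [h2] at h3
      linarith
  obtain ⟨x, hx, hxlim⟩ := (isCompact_Icc (a := ε) (b := ε / κ)).ultrafilter_le_nhds (U.map h)
    (by
      rw [le_principal_iff, Ultrafilter.coe_map]
      exact Filter.mem_map.2 (Filter.univ_mem' hmem))
  have hlim : Tendsto h U (𝓝 x) := hxlim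
  refine ⟨x, hx, h, hlim, ?_⟩
  have htlim : Tendsto t U (𝓝 0) := by
    refine squeeze_zero (fun j => (ht0 j).le) ht2 ?_
    simpa using hl0.div_const ε
  have hdir : Tendsto (fun j => w - h j • e j) U (𝓝 (w - x • e')) :=
    tendsto_const_nhds.sub (hlim.smul he)
  have hsm : ∀ᶠ j in (U : Filter ℕ), t j * ‖w - h j • e j‖ ≤ τ₀ := by
    have h1 : Tendsto (fun j => t j * ‖w - h j • e j‖) U (𝓝 (0 * ‖w - x • e'‖)) :=
      htlim.mul hdir.norm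
    rw [zero_mul] at h1
    exact (h1.eventually_lt tendsto_const_nhds H.hτ).mono fun j hj => hj.le
  have hsm2 : ∀ᶠ j in (U : Filter ℕ), (l j / ε) * ‖w‖ ≤ τ₀ := by
    have h1 : Tendsto (fun j => (l j / ε) * ‖w‖) U (𝓝 ((0 / ε) * ‖w‖)) :=
      (hl0.div_const ε).mul_const _
    rw [zero_div, zero_mul] at h1
    exact (h1.eventually_lt tendsto_const_nhds H.hτ).mono fun j hj => hj.le
  filter_upwards [ha, haρ, hbρ, hC x hx h hlim, hsm, hsm2] with j h1 h2 h3 h4 h5 h6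
  have h7 := P_le H h3 h4.2 h4.1 (ht0 j) h5
  have h8 := ht3 j h1 h2 h6
  have h9 : a j + l j • e j + t j • (w - h j • e j) = a j + t j • w := by
    rw [smul_sub, smul_smul, hh]
    simp only
    rw [mul_div_cancel₀ _ (ht0 j).ne']
    abel
  rw [h9] at h7
  rw [← h8]
  have hlj := hl j
  have htj := ht0 j
  have h10 : (f (a j + t j • w) - f (a j + l j • e j)) / t j =
      (f (a j + t j • w) - f (a j)) / t j - h j * ((f (a j + l j • e j) - f (a j)) / l j) := by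
    rw [hh]
    field_simp
    ring
  rw [← h10]
  exact h7

/-! ### The plane -/

/-- The plane through the two directions. -/
noncomputable def LL (w₀ w₁ : X) (z : ℝ × ℝ) : X := z.1 • w₀ + z.2 • w₁

lemma LL_add (w₀ w₁ : X) (y z : ℝ × ℝ) : LL w₀ w₁ (y + z) = LL w₀ w₁ y + LL w₀ w₁ z := by
  simp only [LL, Prod.fst_add, Prod.snd_add, add_smul]; abel

lemma LL_smul (w₀ w₁ : X) (c : ℝ) (z : ℝ × ℝ) : LL w₀ w₁ (c • z) = c • LL w₀ w₁ z := by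
  simp only [LL, Prod.smul_fst, Prod.smul_snd, smul_eq_mul, smul_add, smul_smul]

lemma LL_neg (w₀ w₁ : X) (z : ℝ × ℝ) : LL w₀ w₁ (-z) = -LL w₀ w₁ z := by
  simp only [LL, Prod.fst_neg, Prod.snd_neg, neg_smul, neg_add]

lemma LL_sub (w₀ w₁ : X) (y z : ℝ × ℝ) : LL w₀ w₁ (y - z) = LL w₀ w₁ y - LL w₀ w₁ z := by
  rw [sub_eq_add_neg, LL_add, LL_neg, sub_eq_add_neg]

lemma LL_cont (w₀ w₁ : X) : Continuous (LL w₀ w₁) := by
  unfold LL; fun_prop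

/-- The double sector. -/
def Sec (x₁ x₂ : ℝ) (z : ℝ × ℝ) : Prop := z.1 ≠ 0 ∧ -x₂ < z.2 / z.1 ∧ z.2 / z.1 < x₁

lemma Sec_open {x₁ x₂ : ℝ} {z : ℝ × ℝ} (h : Sec x₁ x₂ z) : ∀ᶠ z' in 𝓝 z, Sec x₁ x₂ z' := by
  have c1 : ContinuousAt (fun z : ℝ × ℝ => z.1) z := by fun_prop
  have c2 : ContinuousAt (fun z : ℝ × ℝ => z.2 / z.1) z :=
    ContinuousAt.div (by fun_prop) (by fun_prop) h.1
  exact (c1.eventually_ne h.1).and ((continuousAt_const.eventually_lt c2 h.2.1).and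
    (c2.eventually_lt continuousAt_const h.2.2))

lemma Sec_neg {x₁ x₂ : ℝ} {z : ℝ × ℝ} (h : Sec x₁ x₂ z) : Sec x₁ x₂ (-z) := by
  unfold Sec at *
  simp only [Prod.fst_neg, Prod.snd_neg, neg_div_neg_eq]
  exact ⟨neg_ne_zero.2 h.1, h.2⟩

lemma LL_eq (w₀ w₁ : X) {z : ℝ × ℝ} (h : z.1 ≠ 0) :
    LL w₀ w₁ z = z.1 • (w₀ + (z.2 / z.1) • w₁) := by
  simp only [LL, smul_add, smul_smul]
  rw [mul_div_cancel₀ _ h]

lemma mono_of_forward {φ : ℝ → ℝ} {a b : ℝ} (hab : a ≤ b) (hc : ContinuousOn φ (Icc a b))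
    (hstep : ∀ y ∈ Icc a b, ∀ δ > 0, ∃ x, 0 < x ∧ x < δ ∧ φ (y + x) ≤ φ y) : φ b ≤ φ a := by
  have hcl : IsClosed (Icc a b ∩ φ ⁻¹' Iic (φ a)) :=
    hc.preimage_isClosed_of_isClosed isClosed_Icc isClosed_Iic
  have hcomp : IsCompact (Icc a b ∩ φ ⁻¹' Iic (φ a)) :=
    isCompact_Icc.of_isClosed_subset hcl inter_subset_left
  obtain ⟨y, hy, hymax⟩ := hcomp.exists_isGreatest ⟨a, ⟨le_rfl, hab⟩, mem_preimage.2 (mem_Iic.2 le_rfl)⟩
  rcases hy.1.2.lt_or_eq with h | h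
  · exfalso
    obtain ⟨x, hx, hx', hle⟩ := hstep y hy.1 (b - y) (by linarith)
    have : y + x ∈ Icc a b ∩ φ ⁻¹' Iic (φ a) :=
      ⟨⟨by linarith [hy.1.1], by linarith⟩, hle.trans hy.2⟩
    have := hymax this
    linarith
  · rw [← h]; exact hy.2

lemma mono_of_backward {φ : ℝ → ℝ} {a b : ℝ} (hab : a ≤ b) (hc : ContinuousOn φ (Icc a b))
    (hstep : ∀ y ∈ Icc a b, ∀ δ > 0, ∃ x, 0 < x ∧ x < δ ∧ φ (y - x) ≤ φ y) : φ a ≤ φ b := by
  have hcl : IsClosed (Icc a b ∩ φ ⁻¹' Iic (φ b)) :=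
    hc.preimage_isClosed_of_isClosed isClosed_Icc isClosed_Iic
  have hcomp : IsCompact (Icc a b ∩ φ ⁻¹' Iic (φ b)) :=
    isCompact_Icc.of_isClosed_subset hcl inter_subset_left
  obtain ⟨y, hy, hymin⟩ := hcomp.exists_isLeast ⟨b, ⟨hab, le_rfl⟩, mem_preimage.2 (mem_Iic.2 le_rfl)⟩
  rcases hy.1.1.lt_or_eq with h | h
  · exfalso
    obtain ⟨x, hx, hx', hle⟩ := hstep y hy.1 (y - a) (by linarith)
    have : y - x ∈ Icc a b ∩ φ ⁻¹' Iic (φ b) :=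
      ⟨⟨by linarith, by linarith [hy.1.2]⟩, hle.trans hy.2⟩
    have := hymin this
    linarith
  · rw [h]; exact hy.2

lemma P_tendsto (H : Hyp f γ ρ κ τ₀) {ι : Type*} {F : Filter ι} {a b : ι → X} {a' b' : X}
    (hb' : b' ≠ 0) (ha : Tendsto a F (𝓝 a')) (hb : Tendsto b F (𝓝 b')) :
    Tendsto (fun j => P f κ τ₀ (a j) (b j)) F (𝓝 (P f κ τ₀ a' b')) := by
  have h1 : Tendsto (fun z : X × X => P f κ τ₀ z.1 z.2) (𝓝 (a', b')) (𝓝 (P f κ τ₀ a' b')) :=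
    (P_cont H (p := a') hb').tendsto
  have h2 : Tendsto (fun j => (a j, b j)) F (𝓝 (a', b')) := ha.prodMk_nhds hb
  exact Filter.Tendsto.comp (g := fun z : X × X => P f κ τ₀ z.1 z.2)
    (f := fun j => (a j, b j)) h1 h2

lemma exists_seq (H : Hyp f γ ρ κ τ₀) {w₀ w₁ : X} (hw₀ : w₀ ≠ 0) (h0 : γ 0 w₀ = 0) :
    ∃ (l : ℕ → ℝ) (E : ℕ → ℝ × ℝ), (∀ j, 0 < l j) ∧ (∀ j, ‖E j‖ = 1) ∧
      Tendsto l atTop (𝓝 0) ∧ ∀ j, γ (l j • LL w₀ w₁ (E j)) w₀ = 0 := by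
  have hseq : ∀ j : ℕ, ∃ z : ℝ × ℝ, |z.1| < 1 / ((j : ℝ) + 1) ∧ 0 < z.2 ∧ z.2 < 1 / ((j : ℝ) + 1) ∧
      γ (LL w₀ w₁ z) w₀ = 0 := by
    intro j
    obtain ⟨β, η, h2, h3, h4, h5⟩ := step3 H (w₁ := w₁) hw₀ h0 (δ := 1 / ((j : ℝ) + 1))
      (by positivity)
    exact ⟨(β, η), h2, h3, h4, h5⟩
  choose v hv1 hv2 hv3 hv4 using hseq
  have hl : ∀ j, 0 < ‖v j‖ := by
    intro j
    refine norm_pos_iff.2 ?_
    intro h
    have := hv2 j
    rw [h] at this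
    simp at this
  refine ⟨fun j => ‖v j‖, fun j => (‖v j‖)⁻¹ • v j, hl, ?_, ?_, ?_⟩
  · intro j
    simp only
    rw [norm_smul, norm_inv, Real.norm_of_nonneg (hl j).le]
    exact inv_mul_cancel₀ (hl j).ne'
  · refine squeeze_zero (fun j => (hl j).le) (g := fun j : ℕ => 1 / ((j : ℝ) + 1)) ?_
      tendsto_one_div_add_atTop_nhds_zero_nat
    intro j
    rw [Prod.norm_def]
    refine max_le (hv1 j).le ?_
    rw [Real.norm_of_nonneg (hv2 j).le]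
    exact (hv3 j).le
  · intro j
    simp only
    rw [← LL_smul, smul_smul, mul_inv_cancel₀ (hl j).ne', one_smul]
    exact hv4 j

lemma ridge_final (H : Hyp f γ ρ κ τ₀) {w₀ w₁ : X} (hne : ∀ x : ℝ, w₀ + x • w₁ ≠ 0)
    {x₁ x₂ : ℝ} (hx₁ : 0 < x₁) (hx₂ : 0 < x₂) (hend₁ : 0 ≤ AA f κ τ₀ 0 (w₀ + x₁ • w₁))
    (hend₂' : 0 ≤ AA f κ τ₀ 0 (w₀ + (-x₂) • w₁)) {E' : ℝ × ℝ} (hE'n : ‖E'‖ = 1)
    (hE'sec : ¬ Sec x₁ x₂ E')
    (hAconst : ∀ x : ℝ, (∀ y ∈ uIcc 0 x, Sec x₁ x₂ (((1, 0) : ℝ × ℝ) + y • E')) →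
      AA f κ τ₀ 0 (LL w₀ w₁ (((1, 0) : ℝ × ℝ) + x • E')) = AA f κ τ₀ 0 w₀) :
    0 ≤ AA f κ τ₀ 0 w₀ := by
  have hexit : ∃ xs c b : ℝ, 0 < c ∧ -x₂ ≤ b ∧ b ≤ x₁ ∧ 0 ≤ AA f κ τ₀ 0 (w₀ + b • w₁) ∧
      1 + xs * E'.1 = c ∧ xs * E'.2 = c * b := by
    by_cases he1 : E'.1 = 0
    · have he2 : E'.2 ≠ 0 := by
        intro h
        have : E' = 0 := Prod.ext he1 h
        rw [this, norm_zero] at hE'n
        exact zero_ne_one hE'n
      refine ⟨x₁ / E'.2, 1, x₁, one_pos, by linarith, le_rfl, hend₁, ?_, ?_⟩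
      · rw [he1, mul_zero, add_zero]
      · field_simp
    · set r := E'.2 / E'.1 with hr
      have hr' : E'.2 = E'.1 * r := by rw [hr]; field_simp
      rcases lt_or_ge (-x₂) r with h2 | h2
      · have h3 : x₁ ≤ r := by
          by_contra hcon
          push Not at hcon
          exact hE'sec ⟨he1, h2, hcon⟩
        have h4 : 0 < r + x₂ := by linarith
        refine ⟨-x₂ / (E'.1 * (r + x₂)), r / (r + x₂), -x₂, div_pos (by linarith) h4, le_rfl,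
          by linarith, hend₂', ?_, ?_⟩
        · field_simp
          ring
        · rw [hr']
          field_simp
      · have h4 : r - x₁ < 0 := by linarith
        refine ⟨x₁ / (E'.1 * (r - x₁)), r / (r - x₁), x₁, div_pos_of_neg_of_neg (by linarith) h4,
          by linarith, le_rfl, hend₁, ?_, ?_⟩
        · have := h4.ne
          field_simp
          ring
        · have := h4.ne
          rw [hr']
          field_simp
  obtain ⟨xs, c, b, hc, hb2, hb1, hAb, heq1, heq2⟩ := hexit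
  have hsecθ : ∀ θ : ℝ, 0 ≤ θ → θ < 1 → Sec x₁ x₂ (((1, 0) : ℝ × ℝ) + (θ * xs) • E') := by
    intro θ hθ hθ'
    have p1 : (((1, 0) : ℝ × ℝ) + (θ * xs) • E').1 = 1 - θ + θ * c := by
      simp only [Prod.fst_add, Prod.smul_fst, smul_eq_mul]
      rw [← heq1]; ring
    have p2 : (((1, 0) : ℝ × ℝ) + (θ * xs) • E').2 = θ * (c * b) := by
      simp only [Prod.snd_add, Prod.smul_snd, smul_eq_mul]
      rw [← heq2]; ring
    unfold Sec
    rw [p1, p2]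
    have hθc : 0 ≤ θ * c := mul_nonneg hθ hc.le
    have hpos : 0 < 1 - θ + θ * c := by linarith
    refine ⟨hpos.ne', ?_, ?_⟩
    · rw [lt_div_iff₀ hpos]
      nlinarith [mul_nonneg hθc (show 0 ≤ b + x₂ by linarith), mul_pos (show 0 < 1 - θ by linarith) hx₂]
    · rw [div_lt_iff₀ hpos]
      nlinarith [mul_nonneg hθc (show 0 ≤ x₁ - b by linarith), mul_pos (show 0 < 1 - θ by linarith) hx₁]
  have hAθ : ∀ θ : ℝ, 0 ≤ θ → θ < 1 →
      AA f κ τ₀ 0 (LL w₀ w₁ (((1, 0) : ℝ × ℝ) + (θ * xs) • E')) = AA f κ τ₀ 0 w₀ := by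
    intro θ hθ hθ'
    refine hAconst (θ * xs) ?_
    intro y hy
    rw [← segment_eq_uIcc, segment_eq_image] at hy
    obtain ⟨t, ht, rfl⟩ := hy
    simp only [smul_eq_mul, mul_zero, zero_add]
    rw [← mul_assoc]
    refine hsecθ (t * θ) (mul_nonneg ht.1 hθ) ?_
    nlinarith [ht.1, ht.2]
  have hend : LL w₀ w₁ (((1, 0) : ℝ × ℝ) + ((1 : ℝ) * xs) • E') = c • (w₀ + b • w₁) := by
    simp only [LL, Prod.fst_add, Prod.snd_add, Prod.smul_fst, Prod.smul_snd, smul_eq_mul, one_mul,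
      zero_add]
    rw [heq1, heq2, smul_add, smul_smul]
  have hne1 : LL w₀ w₁ (((1, 0) : ℝ × ℝ) + ((1 : ℝ) * xs) • E') ≠ 0 := by
    rw [hend]; exact smul_ne_zero hc.ne' (hne b)
  have hlimθ : Tendsto (fun θ : ℝ => AA f κ τ₀ 0 (LL w₀ w₁ (((1, 0) : ℝ × ℝ) + (θ * xs) • E'))) (𝓝[<] 1)
      (𝓝 (AA f κ τ₀ 0 (LL w₀ w₁ (((1, 0) : ℝ × ℝ) + ((1 : ℝ) * xs) • E')))) := by
    have h2 : ContinuousAt (fun θ : ℝ => ((0 : X), LL w₀ w₁ (((1, 0) : ℝ × ℝ) + (θ * xs) • E'))) 1 := by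
      have := LL_cont w₀ w₁
      fun_prop
    have h3 : ContinuousAt (fun θ : ℝ => AA f κ τ₀ 0 (LL w₀ w₁ (((1, 0) : ℝ × ℝ) + (θ * xs) • E'))) 1 :=
      ContinuousAt.comp (f := fun θ : ℝ => ((0 : X), LL w₀ w₁ (((1, 0) : ℝ × ℝ) + (θ * xs) • E')))
        (g := fun z : X × X => AA f κ τ₀ z.1 z.2) (A_cont H hne1) h2
    exact h3.tendsto.mono_left nhdsWithin_le_nhds
  have hlimθ' : Tendsto (fun θ : ℝ => AA f κ τ₀ 0 (LL w₀ w₁ (((1, 0) : ℝ × ℝ) + (θ * xs) • E'))) (𝓝[<] 1)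
      (𝓝 (AA f κ τ₀ 0 w₀)) := by
    refine tendsto_const_nhds.congr' ?_
    have h4 : ∀ᶠ θ : ℝ in 𝓝[<] 1, 0 < θ :=
      eventually_nhdsWithin_of_eventually_nhds (lt_mem_nhds one_pos)
    filter_upwards [h4, self_mem_nhdsWithin] with θ g1 g2
    exact (hAθ θ g1.le g2).symm
  have hfin := tendsto_nhds_unique hlimθ hlimθ'
  rw [hend, A_smul H hc (hne b)] at hfin
  rw [← hfin]
  exact mul_nonneg hc.le hAb

lemma ridge_core [FiniteDimensional ℝ X] (H : Hyp f γ ρ κ τ₀) {w₀ w₁ : X} (hw₀ : w₀ ≠ 0)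
    (hw₁ : w₁ ≠ 0) (h0 : γ 0 w₀ = 0) (h1 : γ 0 w₁ ≠ 0) : 0 ≤ AA f κ τ₀ 0 w₀ := by
  by_contra hA
  push Not at hA
  have hκ := H.hκ
  have h0ρ : ‖(0 : X)‖ < ρ := by simpa using H.hρ
  have hne := line_ne H hw₀ hw₁ h0 h1
  have hw₁' : -w₁ ≠ 0 := neg_ne_zero.2 hw₁
  have h1' : γ 0 (-w₁) ≠ 0 := by
    intro h
    have := neg_centred H h0ρ hw₁' h
    rw [neg_neg] at this
    exact h1 this
  obtain ⟨x₁, hx₁, hlt₁, hend₁⟩ := step2 H hw₀ hw₁ h0 h1 hA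
  obtain ⟨x₂, hx₂, hlt₂, hend₂⟩ := step2 H hw₀ hw₁' h0 h1' hA
  have hend₂' : 0 ≤ AA f κ τ₀ 0 (w₀ + (-x₂) • w₁) := by
    rwa [neg_smul, ← smul_neg]
  have hflip : ∀ x : ℝ, w₀ + (-x) • (-w₁) = w₀ + x • w₁ := by
    intro x; rw [neg_smul_neg]
  have hgood : ∀ x, -x₂ < x → x < x₁ → γ 0 (w₀ + x • w₁) = 0 := by
    intro x h2 h3
    rcases le_or_gt 0 x with h | h
    · exact (hlt₁ x h h3).1
    · have := (hlt₂ (-x) (by linarith) (by linarith)).1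
      rwa [hflip] at this
  -- the sequence
  obtain ⟨l, E, hl, hEn, hl0', hv4'⟩ := exists_seq H (w₁ := w₁) hw₀ h0
  obtain ⟨q, hqE⟩ : ∃ q : ℕ → X, ∀ j, q j = l j • LL w₀ w₁ (E j) := ⟨_, fun _ => rfl⟩
  have hv4 : ∀ j, γ (q j) w₀ = 0 := by intro j; rw [hqE]; exact hv4' j
  obtain ⟨U, hUle⟩ : ∃ U : Ultrafilter ℕ, (U : Filter ℕ) ≤ atTop :=
    ⟨hyperfilter ℕ, Nat.hyperfilter_le_atTop⟩
  have hl0 : Tendsto l U (𝓝 0) := hl0'.mono_left hUle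
  obtain ⟨E', hE'n, hElim⟩ : ∃ E' : ℝ × ℝ, ‖E'‖ = 1 ∧ Tendsto E U (𝓝 E') := by
    obtain ⟨E', h2, h3⟩ := (isCompact_sphere (0 : ℝ × ℝ) 1).ultrafilter_le_nhds (U.map E)
      (by
        rw [le_principal_iff, Ultrafilter.coe_map]
        refine Filter.mem_map.2 (Filter.univ_mem' fun j => ?_)
        simpa using hEn j)
    exact ⟨E', by simpa using h2, h3⟩
  have hLElim : Tendsto (fun j => LL w₀ w₁ (E j)) U (𝓝 (LL w₀ w₁ E')) :=
    ((LL_cont w₀ w₁).tendsto E').comp hElim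
  have hq0 : Tendsto q U (𝓝 0) := by
    have h2 : Tendsto (fun j => l j • LL w₀ w₁ (E j)) U (𝓝 ((0 : ℝ) • LL w₀ w₁ E')) :=
      hl0.smul hLElim
    rw [zero_smul] at h2
    refine h2.congr ?_
    intro j; exact (hqE j).symm
  have hqρ : ∀ᶠ j in (U : Filter ℕ), ‖q j‖ < ρ := by
    have h2 := hq0.norm
    rw [norm_zero] at h2
    exact h2.eventually_lt tendsto_const_nhds H.hρ
  -- facts about the sector
  have hSne : ∀ z, Sec x₁ x₂ z → LL w₀ w₁ z ≠ 0 := by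
    intro z hz
    rw [LL_eq w₀ w₁ hz.1]
    exact smul_ne_zero hz.1 (hne _)
  have hS0 : ∀ z, Sec x₁ x₂ z → γ 0 (LL w₀ w₁ z) = 0 := by
    intro z hz
    rw [LL_eq w₀ w₁ hz.1]
    exact H.hh 0 _ _ h0ρ (hne _) hz.1 (hgood _ hz.2.1 hz.2.2)
  have hS1 : ∀ z, Sec x₁ x₂ z → ∀ y : ℕ → ℝ × ℝ, Tendsto y U (𝓝 z) →
      ∀ᶠ j in (U : Filter ℕ), γ (q j) (LL w₀ w₁ (y j)) = 0 := by
    intro z hz y hy
    obtain ⟨d₁, hd₁, hd₁'⟩ := exists_between (max_lt hz.2.2 hx₁)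
    obtain ⟨d₂, hd₂, hd₂'⟩ := exists_between (max_lt (show -(z.2 / z.1) < x₂ by linarith [hz.2.1]) hx₂)
    have hz' : Sec d₁ d₂ z := ⟨hz.1, by linarith [le_max_left (-(z.2 / z.1)) 0],
      by linarith [le_max_left (z.2 / z.1) 0]⟩
    have e1 := hy.eventually (Sec_open hz')
    have e2 := hq0.eventually (step4 H hw₀ hw₁ h0 h1 (fun y hy hy' => (hlt₁ y hy hy').2) hd₁')
    have e3 := hq0.eventually (step4 H hw₀ hw₁' h0 h1' (fun y hy hy' => (hlt₂ y hy hy').2) hd₂')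
    filter_upwards [e1, e2, e3, hqρ] with j g1 g2 g3 g4
    rw [LL_eq w₀ w₁ g1.1]
    refine H.hh (q j) _ _ g4 (hne _) g1.1 ?_
    rcases le_or_gt 0 ((y j).2 / (y j).1) with h | h
    · exact g2 (hv4 j) _ ⟨h, g1.2.2.le⟩
    · have := g3 (hv4 j) (-((y j).2 / (y j).1)) ⟨by linarith, by linarith [g1.2.1]⟩
      rwa [hflip] at this
  obtain ⟨G, hG⟩ : ∃ G : ℕ → ℝ, ∀ j, G j = (f (q j) - f 0) / l j := ⟨_, fun _ => rfl⟩
  -- a common choice of ε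
  have hball : ∀ z, Sec x₁ x₂ z → ∃ r > 0, ∀ y, dist y z < r → Sec x₁ x₂ y := fun z hz =>
    Metric.eventually_nhds_iff.1 (Sec_open hz)
  have hG1 : ∀ z, Sec x₁ x₂ z → ∀ δ > 0, ∃ x, 0 < x ∧ x < δ ∧ Sec x₁ x₂ (z - x • E') ∧
      ∃ h : ℕ → ℝ, Tendsto h U (𝓝 x) ∧ ∀ᶠ j in (U : Filter ℕ),
        P f κ τ₀ (q j) (LL w₀ w₁ z - h j • LL w₀ w₁ (E j)) ≤
          P f κ τ₀ 0 (LL w₀ w₁ z) - h j * G j := by
    intro z hz δ hδ
    obtain ⟨r, hr, hball⟩ := hball z hz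
    set ε : ℝ := κ * (min r δ / 2) with hε
    have hm : 0 < min r δ := lt_min hr hδ
    have hε0 : 0 < ε := by rw [hε]; positivity
    have hεκ : ε / κ = min r δ / 2 := by rw [hε]; field_simp
    have hsec : ∀ x ∈ Icc ε (ε / κ), Sec x₁ x₂ (z - x • E') := by
      intro x hx
      apply hball
      rw [dist_eq_norm, sub_sub_cancel_left, norm_neg, norm_smul, hE'n, mul_one,
        Real.norm_of_nonneg (hε0.le.trans hx.1)]
      have := hx.2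
      rw [hεκ] at this
      linarith [min_le_left r δ]
    have hb : ∀ j, (0 : X) + l j • LL w₀ w₁ (E j) = q j := by
      intro j; rw [zero_add, hqE]
    obtain ⟨x, hx, h, hlim, hev⟩ := stepG H U (a := fun _ => (0 : X))
      (e := fun j => LL w₀ w₁ (E j)) (e' := LL w₀ w₁ E') (w := LL w₀ w₁ z) hl hl0 hLElim
      (hSne z hz) (Filter.Eventually.of_forall fun _ => hS0 z hz)
      (Filter.Eventually.of_forall fun _ => h0ρ)
      (by filter_upwards [hqρ] with j hj; rw [hb]; exact hj) hε0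
      (by
        intro x hx h hlim
        have hy : Tendsto (fun j => z - h j • E j) U (𝓝 (z - x • E')) :=
          tendsto_const_nhds.sub (hlim.smul hElim)
        have e1 := hS1 _ (hsec x hx) _ hy
        have e2 := hy.eventually (Sec_open (hsec x hx))
        filter_upwards [e1, e2] with j g1 g2
        have hLj : LL w₀ w₁ z - h j • LL w₀ w₁ (E j) = LL w₀ w₁ (z - h j • E j) := by
          rw [LL_sub, LL_smul]
        rw [hb, hLj]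
        exact ⟨g1, hSne _ g2⟩)
    refine ⟨x, hε0.trans_le hx.1, ?_, hsec x hx, h, hlim, ?_⟩
    · have := hx.2
      rw [hεκ] at this
      linarith [min_le_right r δ]
    · filter_upwards [hev] with j hj
      rw [hb, ← hG] at hj
      exact hj
  have hG2 : ∀ z, Sec x₁ x₂ z → ∀ δ > 0, ∃ x, 0 < x ∧ x < δ ∧ Sec x₁ x₂ (z + x • E') ∧
      ∃ h : ℕ → ℝ, Tendsto h U (𝓝 x) ∧ ∀ᶠ j in (U : Filter ℕ),
        P f κ τ₀ 0 (LL w₀ w₁ z + h j • LL w₀ w₁ (E j)) ≤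
          P f κ τ₀ (q j) (LL w₀ w₁ z) + h j * G j := by
    intro z hz δ hδ
    obtain ⟨r, hr, hball⟩ := hball z hz
    set ε : ℝ := κ * (min r δ / 2) with hε
    have hm : 0 < min r δ := lt_min hr hδ
    have hε0 : 0 < ε := by rw [hε]; positivity
    have hεκ : ε / κ = min r δ / 2 := by rw [hε]; field_simp
    have hsec : ∀ x ∈ Icc ε (ε / κ), Sec x₁ x₂ (z + x • E') := by
      intro x hx
      apply hball
      rw [dist_eq_norm, add_sub_cancel_left, norm_smul, hE'n, mul_one,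
        Real.norm_of_nonneg (hε0.le.trans hx.1)]
      have := hx.2
      rw [hεκ] at this
      linarith [min_le_left r δ]
    have hb : ∀ j, q j + l j • (-LL w₀ w₁ (E j)) = 0 := by
      intro j; rw [smul_neg, ← hqE, add_neg_cancel]
    obtain ⟨x, hx, h, hlim, hev⟩ := stepG H U (a := q)
      (e := fun j => -LL w₀ w₁ (E j)) (e' := -LL w₀ w₁ E') (w := LL w₀ w₁ z) hl hl0 hLElim.neg
      (hSne z hz) (hS1 z hz _ tendsto_const_nhds) hqρ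
      (Filter.Eventually.of_forall fun j => by rw [hb]; exact h0ρ) hε0
      (by
        intro x hx h hlim
        have hy : Tendsto (fun j => z + h j • E j) U (𝓝 (z + x • E')) :=
          tendsto_const_nhds.add (hlim.smul hElim)
        have e2 := hy.eventually (Sec_open (hsec x hx))
        filter_upwards [e2] with j g2
        have hLj : LL w₀ w₁ z - h j • (-LL w₀ w₁ (E j)) = LL w₀ w₁ (z + h j • E j) := by
          rw [LL_add, LL_smul, smul_neg, sub_neg_eq_add]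
        rw [hb, hLj]
        exact ⟨hS0 _ g2, hSne _ g2⟩)
    refine ⟨x, hε0.trans_le hx.1, ?_, hsec x hx, h, hlim, ?_⟩
    · have := hx.2
      rw [hεκ] at this
      linarith [min_le_right r δ]
    · filter_upwards [hev] with j hj
      rw [hb, smul_neg, sub_neg_eq_add] at hj
      refine hj.trans (le_of_eq ?_)
      rw [hG]
      ring
  -- continuity of P in the limits
  have hPlim : ∀ (a : ℕ → X) (b : ℕ → X) (b' : X), b' ≠ 0 → Tendsto a U (𝓝 0) →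
      Tendsto b U (𝓝 b') → Tendsto (fun j => P f κ τ₀ (a j) (b j)) U (𝓝 (P f κ τ₀ 0 b')) := by
    intro a b b' hb' ha hb
    exact P_tendsto H hb' ha hb
  -- boundedness of G
  have hz0 : Sec x₁ x₂ (1, 0) := by
    refine ⟨one_ne_zero, ?_, ?_⟩ <;> simp [hx₁, hx₂]
  obtain ⟨g, hg⟩ : ∃ g, Tendsto G U (𝓝 g) := by
    obtain ⟨x, hx, -, hsx, h, hh, hev⟩ := hG1 _ hz0 1 one_pos
    obtain ⟨x', hx', -, hsx', h', hh', hev'⟩ := hG2 _ hz0 1 one_pos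
    have l1 : Tendsto (fun j => (P f κ τ₀ 0 (LL w₀ w₁ (1, 0)) -
        P f κ τ₀ (q j) (LL w₀ w₁ (1, 0) - h j • LL w₀ w₁ (E j))) / h j) U
        (𝓝 ((P f κ τ₀ 0 (LL w₀ w₁ (1, 0)) -
        P f κ τ₀ 0 (LL w₀ w₁ (1, 0) - x • LL w₀ w₁ E')) / x)) := by
      refine (tendsto_const_nhds.sub (hPlim _ _ _ ?_ hq0 ?_)).div hh hx.ne'
      · rw [← LL_smul, ← LL_sub]; exact hSne _ hsx
      · exact tendsto_const_nhds.sub (hh.smul hLElim)
    have l2 : Tendsto (fun j => (P f κ τ₀ 0 (LL w₀ w₁ (1, 0) + h' j • LL w₀ w₁ (E j)) -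
        P f κ τ₀ (q j) (LL w₀ w₁ (1, 0))) / h' j) U
        (𝓝 ((P f κ τ₀ 0 (LL w₀ w₁ (1, 0) + x' • LL w₀ w₁ E') -
        P f κ τ₀ 0 (LL w₀ w₁ (1, 0))) / x')) := by
      refine ((hPlim _ _ _ ?_ tendsto_const_nhds ?_).sub
        (hPlim _ _ _ (hSne _ hz0) hq0 tendsto_const_nhds)).div hh' hx'.ne'
      · rw [← LL_smul, ← LL_add]; exact hSne _ hsx'
      · exact tendsto_const_nhds.add (hh'.smul hLElim)
    set B1 := (P f κ τ₀ 0 (LL w₀ w₁ (1, 0)) -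
        P f κ τ₀ 0 (LL w₀ w₁ (1, 0) - x • LL w₀ w₁ E')) / x
    set B2 := (P f κ τ₀ 0 (LL w₀ w₁ (1, 0) + x' • LL w₀ w₁ E') -
        P f κ τ₀ 0 (LL w₀ w₁ (1, 0))) / x'
    have e1 : ∀ᶠ j in (U : Filter ℕ), G j ≤ B1 + 1 := by
      filter_upwards [hev, hh.eventually (lt_mem_nhds hx),
        l1.eventually (gt_mem_nhds (lt_add_one B1))] with j g1 g2 g3
      refine le_trans ?_ g3.le
      rw [le_div_iff₀ g2]
      linarith
    have e2 : ∀ᶠ j in (U : Filter ℕ), B2 - 1 ≤ G j := by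
      filter_upwards [hev', hh'.eventually (lt_mem_nhds hx'),
        l2.eventually (lt_mem_nhds (sub_one_lt B2))] with j g1 g2 g3
      refine le_trans g3.le ?_
      rw [div_le_iff₀ g2]
      linarith
    obtain ⟨g, -, hg⟩ := (isCompact_Icc (a := B2 - 1) (b := B1 + 1)).ultrafilter_le_nhds (U.map G)
      (by
        rw [le_principal_iff, Ultrafilter.coe_map]
        refine Filter.mem_map.2 ?_
        filter_upwards [e1, e2] with j g1 g2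
        exact ⟨g2, g1⟩)
    exact ⟨g, hg⟩
  have hT1 : ∀ z, Sec x₁ x₂ z → ∀ δ > 0, ∃ x, 0 < x ∧ x < δ ∧
      P f κ τ₀ 0 (LL w₀ w₁ (z - x • E')) ≤ P f κ τ₀ 0 (LL w₀ w₁ z) - x * g := by
    intro z hz δ hδ
    obtain ⟨x, hx, hxδ, hsx, h, hh, hev⟩ := hG1 z hz δ hδ
    refine ⟨x, hx, hxδ, ?_⟩
    refine le_of_tendsto_of_tendsto ?_ ?_ hev
    · rw [LL_sub, LL_smul]
      refine hPlim _ _ _ ?_ hq0 (tendsto_const_nhds.sub (hh.smul hLElim))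
      rw [← LL_smul, ← LL_sub]; exact hSne _ hsx
    · exact tendsto_const_nhds.sub (hh.mul hg)
  have hT2 : ∀ z, Sec x₁ x₂ z → ∀ δ > 0, ∃ x, 0 < x ∧ x < δ ∧
      P f κ τ₀ 0 (LL w₀ w₁ (z + x • E')) ≤ P f κ τ₀ 0 (LL w₀ w₁ z) + x * g := by
    intro z hz δ hδ
    obtain ⟨x, hx, hxδ, hsx, h, hh, hev⟩ := hG2 z hz δ hδ
    refine ⟨x, hx, hxδ, ?_⟩
    refine le_of_tendsto_of_tendsto ?_ ?_ hev
    · rw [LL_add, LL_smul]
      refine hPlim _ _ _ ?_ tendsto_const_nhds (tendsto_const_nhds.add (hh.smul hLElim))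
      rw [← LL_smul, ← LL_add]; exact hSne _ hsx
    · exact (hPlim _ _ _ (hSne z hz) hq0 tendsto_const_nhds).add (hh.mul hg)
  -- step 6
  have hconst : ∀ z xa xb, xa ≤ xb → (∀ x ∈ Icc xa xb, Sec x₁ x₂ (z + x • E')) →
      P f κ τ₀ 0 (LL w₀ w₁ (z + xa • E')) - xa * g =
        P f κ τ₀ 0 (LL w₀ w₁ (z + xb • E')) - xb * g := by
    intro z xa xb hab hsec
    have hc : ContinuousOn (fun x : ℝ => P f κ τ₀ 0 (LL w₀ w₁ (z + x • E')) - x * g)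
        (Icc xa xb) := by
      intro x hx
      have h2 : ContinuousAt (fun x : ℝ => ((0 : X), LL w₀ w₁ (z + x • E'))) x := by
        have := LL_cont w₀ w₁
        fun_prop
      have h3 : ContinuousAt (fun x : ℝ => P f κ τ₀ 0 (LL w₀ w₁ (z + x • E'))) x :=
        ContinuousAt.comp (f := fun x : ℝ => ((0 : X), LL w₀ w₁ (z + x • E')))
          (g := fun z : X × X => P f κ τ₀ z.1 z.2) (P_cont H (hSne _ (hsec x hx))) h2
      exact (h3.sub (by fun_prop)).continuousWithinAt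
    apply le_antisymm
    · refine mono_of_backward (φ := fun x : ℝ => P f κ τ₀ 0 (LL w₀ w₁ (z + x • E')) - x * g) hab hc ?_
      intro y hy δ hδ
      obtain ⟨x, hx, hxδ, hle⟩ := hT1 _ (hsec y hy) δ hδ
      refine ⟨x, hx, hxδ, ?_⟩
      rw [sub_smul, ← add_sub_assoc]
      linarith
    · refine mono_of_forward (φ := fun x : ℝ => P f κ τ₀ 0 (LL w₀ w₁ (z + x • E')) - x * g) hab hc ?_
      intro y hy δ hδ
      obtain ⟨x, hx, hxδ, hle⟩ := hT2 _ (hsec y hy) δ hδ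
      refine ⟨x, hx, hxδ, ?_⟩
      rw [add_smul, ← add_assoc]
      linarith
  have hLz0 : LL w₀ w₁ (1, 0) = w₀ := by simp [LL]
  have hAconst : ∀ x : ℝ, (∀ y ∈ uIcc 0 x, Sec x₁ x₂ (((1, 0) : ℝ × ℝ) + y • E')) →
      AA f κ τ₀ 0 (LL w₀ w₁ (((1, 0) : ℝ × ℝ) + x • E')) = AA f κ τ₀ 0 w₀ := by
    intro x hx
    have hneg : ∀ y ∈ uIcc 0 x, Sec x₁ x₂ (-((1, 0) : ℝ × ℝ) + (-y) • E') := by
      intro y hy
      have := Sec_neg (hx y hy)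
      rwa [neg_add, ← neg_smul] at this
    have e1 : -(LL w₀ w₁ (((1, 0) : ℝ × ℝ) + x • E')) = LL w₀ w₁ (-((1, 0) : ℝ × ℝ) + (-x) • E') := by
      rw [← LL_neg, neg_add, neg_smul]
    have e2 : -w₀ = LL w₀ w₁ (-((1, 0) : ℝ × ℝ)) := by rw [LL_neg, hLz0]
    unfold AA
    rw [e1, e2]
    rcases le_total 0 x with h | h
    · rw [uIcc_of_le h] at hx hneg
      have c1 := hconst ((1, 0) : ℝ × ℝ) 0 x h hx
      have c2 := hconst (-((1, 0) : ℝ × ℝ)) (-x) 0 (by linarith) (by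
        intro y hy
        have := hneg (-y) ⟨by linarith [hy.2], by linarith [hy.1]⟩
        rwa [neg_neg] at this)
      rw [zero_smul, add_zero] at c1 c2
      rw [hLz0] at c1
      linarith
    · rw [uIcc_of_ge h] at hx hneg
      have c1 := hconst ((1, 0) : ℝ × ℝ) x 0 h hx
      have c2 := hconst (-((1, 0) : ℝ × ℝ)) 0 (-x) (by linarith) (by
        intro y hy
        have := hneg (-y) ⟨by linarith [hy.2], by linarith [hy.1]⟩
        rwa [neg_neg] at this)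
      rw [zero_smul, add_zero] at c1 c2
      rw [hLz0] at c1
      linarith
  -- step 7
  have hE'sec : ¬ Sec x₁ x₂ E' := by
    intro hs
    have e1 := hS1 _ hs _ hElim
    have e2 := hElim.eventually (Sec_open hs)
    obtain ⟨j, g1, g2, g3⟩ := (e1.and (e2.and hqρ)).exists
    have g4 := H.hu 0 (LL w₀ w₁ (E j)) (l j) h0ρ (by rw [zero_add, ← hqE]; exact g3)
      (hSne _ g2) (hl j).ne' (hS0 _ g2)
    rw [zero_add, ← hqE] at g4
    exact g4 g1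
  exact absurd (ridge_final H hne hx₁ hx₂ hend₁ hend₂' hE'n hE'sec hAconst) (not_le.2 hA)

end


/-- **Module C2.** -/
theorem ridge : Pool.Agent.H63.Star.RidgeStmt := by
  intro X _ _ _ f γ ρ κ τ₀ hf hρ hκ hκ1 hτ hc hh hu hs hsim hne w hw h0 t t' ht ht' htw htw'
  obtain ⟨w₁, hw₁, h1⟩ := hne
  have H : Hyp f γ ρ κ τ₀ := ⟨hf, hρ, hκ, hκ1, hτ, hc, hh, hu, hs, hsim⟩
  have h0ρ : ‖(0 : X)‖ < ρ := by simpa using hρ
  have hA := ridge_core H hw hw₁ h0 h1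
  have e1 := P_le H h0ρ hw h0 ht htw
  have e2 := P_le H h0ρ (neg_ne_zero.2 hw) (neg_centred H h0ρ hw h0) ht' (by rwa [norm_neg])
  rw [zero_add] at e1 e2
  rw [smul_neg] at e2
  unfold AA at hA
  linarith

end Pool.Agent.H91.Star
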