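import Pool.Agent.H91.Star.C1
import Pool.Agent.H91.Star.C2
import Pool.Agent.H16.Star.C3

/-!
# No plateau (module C6 of MP_bd4439_gt)
-/

namespace Pool.Agent.H91.Star

open Set Filter Topology
open Pool.Agent.H63.Star
open scoped RealInnerProductSpace

section

variable {E : Type} [NormedAddCommGroup E] [InnerProductSpace ℝ E]
  {F G : E → ℝ}

/-- The linear form `⟪v₀, ·⟫ / ‖v₀‖²`. -/
noncomputable def ee (v₀ : E) (z : E) : ℝ := ⟪v₀, z⟫ / ‖v₀‖ ^ 2

/-- The offset of the centre on the line `v₀ + p + ℝ w`. -/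
noncomputable def gam (F G : E → ℝ) (v₀ p w : E) : ℝ :=
  ⟪ctr F G (v₀ + p) w - ee v₀ (ctr F G (v₀ + p) w) • (v₀ + p), w⟫ / ‖w‖ ^ 2

lemma span_shift (q w : E) (τ : ℝ) :
    Submodule.span ℝ {q + τ • w, w} = Submodule.span ℝ {q, w} := by
  have h := span_smul (E := E) (a := w) (b := q) (s := 1) (t := 1) (c := τ) one_ne_zero one_ne_zero
  rw [one_smul, one_smul] at h
  rw [Set.pair_comm, h, Set.pair_comm]

lemma gam_spec {v₀ p w : E} (hv₀ : v₀ ≠ 0) (hp : ⟪v₀, p⟫ = 0) (hw : ⟪v₀, w⟫ = 0) (hw0 : w ≠ 0) :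
    ∃ α : ℝ, ctr F G (v₀ + p) w = α • (v₀ + p) + gam F G v₀ p w • w ∧
      ∀ τ : ℝ, gam F G v₀ (p + τ • w) w = gam F G v₀ p w - τ * α := by
  have hvn : ‖v₀‖ ^ 2 ≠ 0 := pow_ne_zero _ (norm_ne_zero_iff.2 hv₀)
  have hwn : ‖w‖ ^ 2 ≠ 0 := pow_ne_zero _ (norm_ne_zero_iff.2 hw0)
  have key : ∀ (p' : E) (α β : ℝ), ⟪v₀, p'⟫ = 0 → ctr F G (v₀ + p') w = α • (v₀ + p') + β • w →
      gam F G v₀ p' w = β := by
    intro p' α β hp' h
    have h1 : ee v₀ (ctr F G (v₀ + p') w) = α := by
      rw [h]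
      unfold ee
      rw [inner_add_right, inner_smul_right, inner_smul_right, inner_add_right, hp', hw,
        real_inner_self_eq_norm_sq]
      field_simp
      ring
    unfold gam
    rw [h1, h, add_sub_cancel_left, inner_smul_left, real_inner_self_eq_norm_sq]
    simp only [conj_trivial]
    field_simp
  obtain ⟨α, β, hαβ⟩ := Submodule.mem_span_pair.1 (ctr_mem F G (v₀ + p) w)
  have h1 := key p α β hp hαβ.symm
  refine ⟨α, by rw [h1]; exact hαβ.symm, fun τ => ?_⟩
  rw [h1]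
  apply key (p + τ • w) α (β - τ * α)
  · rw [inner_add_right, inner_smul_right, hp, hw]; ring
  · have h2 : ctr F G (v₀ + (p + τ • w)) w = ctr F G (v₀ + p) w := by
      apply ctr_congr
      rw [← add_assoc, span_shift]
    rw [h2, ← hαβ]
    module

lemma gam_zero_iff {v₀ p w : E} (hv₀ : v₀ ≠ 0) (hp : ⟪v₀, p⟫ = 0) (hw : ⟪v₀, w⟫ = 0) (hw0 : w ≠ 0) :
    gam F G v₀ p w = 0 ↔ Cen F G (v₀ + p) w := by
  obtain ⟨α, h1, -⟩ := gam_spec (F := F) (G := G) hv₀ hp hw hw0
  have hvn : ‖v₀‖ ^ 2 ≠ 0 := pow_ne_zero _ (norm_ne_zero_iff.2 hv₀)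
  constructor
  · intro h
    rw [h, zero_smul, add_zero] at h1
    exact ⟨α, h1⟩
  · rintro ⟨c, hc⟩
    rw [h1] at hc
    have h2 : (α - c) • (v₀ + p) + gam F G v₀ p w • w = 0 := by
      rw [sub_smul, ← hc]; abel
    have h3 := congrArg (fun z => ⟪v₀, z⟫) h2
    simp only [inner_add_right, inner_smul_right, hp, hw, inner_zero_right,
      real_inner_self_eq_norm_sq] at h3
    have h4 : α - c = 0 := by
      have : (α - c) * ‖v₀‖ ^ 2 = 0 := by linarith
      exact (mul_eq_zero.1 this).resolve_right hvn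
    rw [h4, zero_smul, zero_add] at h2
    exact (smul_eq_zero.1 h2).resolve_right hw0

lemma gam_cont (hF : IsGauge F) (hG : IsGauge G) (hP : Planar F G) {v₀ p w : E} (hw0 : w ≠ 0)
    (hind : LinearIndependent ℝ ![v₀ + p, w]) :
    ContinuousAt (fun q : E × E => gam F G v₀ q.1 q.2) (p, w) := by
  have hwn : ‖w‖ ^ 2 ≠ 0 := pow_ne_zero _ (norm_ne_zero_iff.2 hw0)
  have h1 : ContinuousAt (fun q : E × E => ctr F G (v₀ + q.1) q.2) (p, w) :=
    ContinuousAt.comp (f := fun q : E × E => (v₀ + q.1, q.2))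
      (g := fun q : E × E => ctr F G q.1 q.2) (ctr_cont hP hF hG hind) (by fun_prop)
  have h2 : Continuous (ee v₀) := by unfold ee; fun_prop
  have h3 : ContinuousAt (fun q : E × E => ee v₀ (ctr F G (v₀ + q.1) q.2)) (p, w) :=
    ContinuousAt.comp (f := fun q : E × E => ctr F G (v₀ + q.1) q.2) (g := ee v₀)
      h2.continuousAt h1
  unfold gam
  have c1 : ContinuousAt (fun q : E × E => v₀ + q.1) (p, w) := by fun_prop
  have c2 : ContinuousAt (fun q : E × E => q.2) (p, w) := by fun_prop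
  exact (((h1.sub (h3.smul c1)).inner c2).div (c2.norm.pow 2) hwn)

end

/-- **Module C6.** -/
theorem noPlateau (hE : EscapeStmt) : NoPlateauStmt := by
  intro E _ _ _ F G hF hG hP h3 c₀ v₀ ε hc₀ hv₀ hε hFG hctr hnf
  have hvn : ‖v₀‖ ^ 2 ≠ 0 := pow_ne_zero _ (norm_ne_zero_iff.2 hv₀)
  obtain ⟨X, hX, hX2⟩ : ∃ X : Submodule ℝ E, (∀ z, z ∈ X ↔ ⟪v₀, z⟫ = 0) ∧
      1 < Module.finrank ℝ X := by
    refine ⟨(Submodule.span ℝ {v₀})ᗮ,
      fun z => Submodule.mem_orthogonal_singleton_iff_inner_right, ?_⟩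
    have h1 := Submodule.finrank_add_finrank_orthogonal (Submodule.span ℝ {v₀})
    rw [finrank_span_singleton hv₀] at h1
    omega
  have hvX : v₀ ∉ X := by
    rw [hX, real_inner_self_eq_norm_sq]; exact hvn
  have hmem : ∀ p : X, ⟪v₀, (p : E)⟫ = 0 := fun p => (hX _).1 p.2
  obtain ⟨ρ₀, κ, τ₀, hρ₀, hκ, hκ1, hτ, hsim⟩ := selfSim E F G hF hG hP v₀ X ε hvX hε hFG hctr
  obtain ⟨ρ, hρ, hρρ₀, hρε⟩ : ∃ ρ : ℝ, 0 < ρ ∧ 2 * ρ ≤ ρ₀ ∧ 2 * ρ ≤ ε :=
    ⟨min ρ₀ ε / 2, by have := lt_min hρ₀ hε; positivity, by linarith [min_le_left ρ₀ ε],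
      by linarith [min_le_right ρ₀ ε]⟩
  have hind : ∀ p w : X, w ≠ 0 → LinearIndependent ℝ ![v₀ + (p : E), (w : E)] := by
    intro p w hw
    refine indep_of_notMem (add_notMem hvX p.2) w.2 ?_
    simpa using hw
  have hball : ∀ p : X, ‖p‖ < 2 * ρ → v₀ + (p : E) ∈ Metric.ball v₀ ε := by
    intro p hp
    rw [Metric.mem_ball, dist_eq_norm, add_sub_cancel_left]
    exact lt_of_lt_of_le hp hρε
  -- the offset function on X
  obtain ⟨γ, hγ⟩ : ∃ γ : X → X → ℝ, ∀ p w, γ p w = gam F G v₀ (p : E) (w : E) := ⟨_, fun _ _ => rfl⟩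
  have hγeq : (fun q : X × X => γ q.1 q.2) = fun q : X × X => gam F G v₀ (q.1 : E) (q.2 : E) :=
    funext fun q => hγ _ _
  have hγc : ∀ p w : X, w ≠ 0 → ContinuousAt (fun q : X × X => γ q.1 q.2) (p, w) := by
    intro p w hw
    rw [hγeq]
    exact ContinuousAt.comp (f := fun q : X × X => ((q.1 : E), (q.2 : E)))
      (g := fun q : E × E => gam F G v₀ q.1 q.2)
      (gam_cont hF hG hP (by simpa using hw) (hind p w hw)) (by fun_prop)
  have hγz : ∀ p w : X, w ≠ 0 → (γ p w = 0 ↔ Cen F G (v₀ + (p : E)) (w : E)) := by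
    intro p w hw
    rw [hγ]
    exact gam_zero_iff hv₀ (hmem p) (hmem w) (by simpa using hw)
  have hγh : ∀ (p w : X) (t : ℝ), w ≠ 0 → t ≠ 0 → γ p w = 0 → γ p (t • w) = 0 := by
    intro p w t hw ht h
    rw [hγz p _ (smul_ne_zero ht hw)]
    rw [hγz p w hw] at h
    have := h.smul_right ht
    simpa using this
  have hγs : ∀ p w : X, ‖p‖ < 2 * ρ → w ≠ 0 → γ p w = 0 →
      ∃ α : ℝ, α ≠ 0 ∧ ∀ τ : ℝ, γ (p + τ • w) w = - (τ * α) := by
    intro p w hp hw h
    have hw' : (w : E) ≠ 0 := by simpa using hw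
    obtain ⟨α, h1, h2⟩ := gam_spec (F := F) (G := G) hv₀ (hmem p) (hmem w) hw'
    rw [← hγ, h] at h1
    refine ⟨α, ?_, ?_⟩
    · rintro rfl
      rw [zero_smul, zero_smul, zero_add] at h1
      exact hctr _ (hball p hp) _ (hind p w hw) h1
    · intro τ
      rw [hγ]
      have := h2 τ
      rw [← hγ p w, h, zero_sub] at this
      simpa using this
  have hnb : ∀ (p : X), ∃ w : X, w ≠ 0 ∧ γ p w ≠ 0 := by
    intro p
    have hz : v₀ + (p : E) ≠ 0 := by
      intro h
      apply add_notMem hvX p.2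
      rw [h]; exact X.zero_mem
    obtain ⟨d, hd, hnc⟩ := hnf _ hz
    have hspan := LinearIndependent.pair_iff.1 hd
    have hinner : ⟪v₀, v₀ + (p : E)⟫ = ‖v₀‖ ^ 2 := by
      rw [inner_add_right, hmem, real_inner_self_eq_norm_sq, add_zero]
    set c : ℝ := -(⟪v₀, d⟫ / ‖v₀‖ ^ 2) with hc
    have hwX : d + c • (v₀ + (p : E)) ∈ X := by
      rw [hX, inner_add_right, inner_smul_right, hinner, hc]
      field_simp
      ring
    have hw0 : d + c • (v₀ + (p : E)) ≠ 0 := by
      intro h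
      have := hspan c 1 (by rw [one_smul, add_comm]; exact h)
      exact one_ne_zero this.2
    refine ⟨⟨_, hwX⟩, ?_, ?_⟩
    · intro h
      apply hw0
      exact congrArg Subtype.val h
    · intro h
      rw [hγz _ _ (by intro h; exact hw0 (congrArg Subtype.val h))] at h
      apply hnc
      have h2 := h.smul_add (s := 1) (t := 1) (c := -c) one_ne_zero one_ne_zero
      have e : (1 : ℝ) • (d + c • (v₀ + (p : E))) + (-c) • (v₀ + (p : E)) = d := by module
      simp only at h2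
      rw [e, one_smul] at h2
      exact h2
  -- centred lines are straight
  have hridge : ∀ (s : ℝ), (s = 1 ∨ s = -1) → ∀ (p w : X), ‖p‖ < ρ → w ≠ 0 → γ p w = 0 →
      ∀ t t' : ℝ, 0 < t → 0 < t' → t * ‖w‖ ≤ τ₀ → t' * ‖w‖ ≤ τ₀ →
      0 ≤ (s * F (v₀ + (p : E) + t • (w : E)) - s * F (v₀ + (p : E))) / t +
        (s * F (v₀ + (p : E) + -(t' • (w : E))) - s * F (v₀ + (p : E))) / t' := by
    intro s hs p w hp hw h0 t t' ht ht' htw htw'
    have hFc := hF.cont
    have hR := ridge X (fun x : X => s * F (v₀ + (p : E) + (x : E))) (fun x y => γ (p + x) y)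
      ρ κ τ₀ (by fun_prop) hρ hκ hκ1 hτ ?_ ?_ ?_ ?_ ?_ ?_ w hw (by simpa using h0) t t' ht ht' htw htw'
    · simpa using hR
    · intro x y _ hy
      have h1 : ContinuousAt (fun q : X × X => γ q.1 q.2) ((fun q : X × X => (p + q.1, q.2)) (x, y)) :=
        hγc _ _ hy
      exact ContinuousAt.comp (f := fun q : X × X => (p + q.1, q.2))
        (g := fun q : X × X => γ q.1 q.2) h1 (by fun_prop)
    · intro x y t _ hy ht h
      exact hγh _ _ _ hy ht h
    · intro x y t hx hxt hy ht h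
      obtain ⟨α, hα, hαt⟩ := hγs (p + x) y (by
        have := norm_add_le p x
        linarith) hy h
      have := hαt t
      rw [add_assoc] at this
      rw [this]
      exact neg_ne_zero.2 (mul_ne_zero ht hα)
    · intro x y hx hy h δ hδ
      obtain ⟨α, hα, hαt⟩ := hγs (p + x) y (by
        have := norm_add_le p x
        linarith) hy h
      have hαt' : ∀ τ : ℝ, γ (p + (x + τ • y)) y = -(τ * α) := by
        intro τ; rw [← add_assoc]; exact hαt τ
      have hα2 : 0 < |α| := abs_pos.2 hα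
      refine ⟨⟨-(δ / 2) * SignType.sign α, ?_, ?_⟩, ⟨(δ / 2) * SignType.sign α, ?_, ?_⟩⟩
      · rcases lt_or_gt_of_ne hα with h1 | h1
        · rw [sign_neg h1]
          simp only [SignType.coe_neg_one]
          rw [abs_of_pos (by linarith)]; linarith
        · rw [sign_pos h1]
          simp only [SignType.coe_one, mul_one]
          rw [abs_neg, abs_of_pos (by linarith)]; linarith
      · rw [hαt']
        rcases lt_or_gt_of_ne hα with h1 | h1
        · rw [sign_neg h1]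
          simp only [SignType.coe_neg_one]
          nlinarith
        · rw [sign_pos h1]
          simp only [SignType.coe_one, mul_one]
          nlinarith
      · rcases lt_or_gt_of_ne hα with h1 | h1
        · rw [sign_neg h1]
          simp only [SignType.coe_neg_one]
          rw [abs_of_neg (by linarith)]; linarith
        · rw [sign_pos h1]
          simp only [SignType.coe_one, mul_one]
          rw [abs_of_pos (by linarith)]; linarith
      · rw [hαt']
        rcases lt_or_gt_of_ne hα with h1 | h1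
        · rw [sign_neg h1]
          simp only [SignType.coe_neg_one]
          nlinarith
        · rw [sign_pos h1]
          simp only [SignType.coe_one, mul_one]
          nlinarith
    · intro x y hx hy h t τ ht hτ' hty hτy
      have hcen := (hγz _ _ hy).1 h
      obtain ⟨t', g1, g2, g3⟩ := hsim ((p + x : X) : E) (p + x).2 (by
        have := norm_add_le p x
        exact lt_of_lt_of_le (lt_of_le_of_lt this (by linarith)) hρρ₀) (y : E) y.2
        (by simpa using hy) hcen t τ ht hτ' hty hτy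
      refine ⟨t', g1, g2, ?_⟩
      have e : ∀ r : ℝ, v₀ + (p : E) + ((x + r • y : X) : E) = v₀ + ((p + x : X) : E) + r • (y : E) := by
        intro r
        simp only [Submodule.coe_add, Submodule.coe_smul]
        abel
      have e' : v₀ + (p : E) + (x : E) = v₀ + ((p + x : X) : E) := by
        simp only [Submodule.coe_add]
        abel
      simp only [e, e']
      rw [← mul_sub, ← mul_sub, mul_div_assoc, mul_div_assoc, g3]
    · obtain ⟨w', h1, h2⟩ := hnb p
      exact ⟨w', h1, by simpa using h2⟩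
  have hstr : ∀ p w : X, ‖p‖ < ρ → w ≠ 0 → γ p w = 0 →
      ∃ σ : ℝ, ∀ t : ℝ, |t| * ‖w‖ ≤ τ₀ → F (v₀ + ((p + t • w : X) : E)) = F (v₀ + (p : E)) + t * σ := by
    intro p w hp hw h0
    have hw0 : 0 < ‖w‖ := norm_pos_iff.2 hw
    set T : ℝ := τ₀ / ‖w‖ with hT
    have hT0 : 0 < T := div_pos hτ hw0
    have hTw : T * ‖w‖ ≤ τ₀ := by rw [hT, div_mul_cancel₀ _ hw0.ne']
    have heq : ∀ t t' : ℝ, 0 < t → 0 < t' → t * ‖w‖ ≤ τ₀ → t' * ‖w‖ ≤ τ₀ →
        (F (v₀ + (p : E) + t • (w : E)) - F (v₀ + (p : E))) / t =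
        -((F (v₀ + (p : E) + -(t' • (w : E))) - F (v₀ + (p : E))) / t') := by
      intro t t' ht ht' htw htw'
      have h1 := hridge 1 (Or.inl rfl) p w hp hw h0 t t' ht ht' htw htw'
      have h2 := hridge (-1) (Or.inr rfl) p w hp hw h0 t t' ht ht' htw htw'
      rw [one_mul, one_mul, one_mul] at h1
      have e1 : ∀ a b c : ℝ, (-1 * a - -1 * b) / c = -((a - b) / c) := by intro a b c; ring
      rw [e1, e1] at h2
      linarith
    refine ⟨(F (v₀ + (p : E) + T • (w : E)) - F (v₀ + (p : E))) / T, ?_⟩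
    intro t ht
    have ecoe : v₀ + ((p + t • w : X) : E) = v₀ + (p : E) + t • (w : E) := by
      simp only [Submodule.coe_add, Submodule.coe_smul]; abel
    rw [ecoe]
    rcases lt_trichotomy t 0 with h | h | h
    · rw [abs_of_neg h] at ht
      have h1 := heq T (-t) hT0 (by linarith) hTw ht
      have e2 : v₀ + (p : E) + -(-t • (w : E)) = v₀ + (p : E) + t • (w : E) := by
        rw [neg_smul, neg_neg]
      rw [e2] at h1
      rw [h1]
      have : t ≠ 0 := h.ne
      field_simp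
      ring
    · subst h
      simp
    · rw [abs_of_pos h] at ht
      have h1 := heq T T hT0 hT0 hTw hTw
      have h2 := heq t T h hT0 ht hTw
      rw [← h1] at h2
      rw [← h2]
      field_simp
      ring
  -- a centred direction at v₀
  obtain ⟨w₀, hw₀, hγ0⟩ : ∃ w₀ : X, w₀ ≠ 0 ∧ γ 0 w₀ = 0 := by
    have : Nontrivial X := Module.nontrivial_of_finrank_pos (R := ℝ) (by omega)
    obtain ⟨x, hx⟩ := exists_ne (0 : X)
    obtain ⟨y, hxy⟩ := exists_linearIndependent_pair_of_one_lt_finrank hX2 hx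
    have hind3 : LinearIndependent ℝ ![v₀, (x : E), (y : E)] := by
      rw [Fintype.linearIndependent_iff]
      intro g hg
      simp only [Fin.sum_univ_three, Matrix.cons_val_zero, Matrix.cons_val_one,
        Matrix.cons_val_two, Matrix.head_cons, Matrix.tail_cons, Matrix.cons_val] at hg
      have h1 := congrArg (fun z => ⟪v₀, z⟫) hg
      simp only [inner_add_right, inner_smul_right, hmem, inner_zero_right,
        real_inner_self_eq_norm_sq] at h1
      have h2 : g 0 = 0 := by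
        have : g 0 * ‖v₀‖ ^ 2 = 0 := by linarith
        exact (mul_eq_zero.1 this).resolve_right hvn
      rw [h2, zero_smul, zero_add] at hg
      have h3 := LinearIndependent.pair_iff.1 hxy (g 1) (g 2) (by
        apply Subtype.ext
        simpa using hg)
      intro i
      fin_cases i
      · exact h2
      · exact h3.1
      · exact h3.2
    obtain ⟨s, t, -, hli, hcen⟩ := exists_cen hP hF hG hind3
    have hne : s • x + t • y ≠ 0 := by
      intro h
      have h4 : s • (x : E) + t • (y : E) = 0 := by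
        have := congrArg Subtype.val h
        simpa using this
      have h5 := hli.ne_zero 1
      apply h5
      simpa using h4
    refine ⟨s • x + t • y, hne, ?_⟩
    rw [hγz _ _ hne]
    simpa using hcen
  have hFc := hF.cont
  obtain ⟨n, hn⟩ := Pool.Agent.H16.Star.flat X (fun x : X => F (v₀ + (x : E))) γ ρ τ₀ w₀
    (by fun_prop) hρ hτ hw₀ (fun p w _ hw => hγc p w hw) hγ0 (by
      intro δ hδ
      obtain ⟨α, hα, hαt⟩ := hγs 0 w₀ (by rw [norm_zero]; linarith) hw₀ hγ0
      simp only [zero_add] at hαt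
      rcases lt_or_gt_of_ne hα with h1 | h1
      · refine ⟨⟨δ / 2, ?_, ?_⟩, ⟨-(δ / 2), ?_, ?_⟩⟩
        · rw [abs_of_pos (by linarith)]; linarith
        · rw [hαt]; nlinarith
        · rw [abs_neg, abs_of_pos (by linarith)]; linarith
        · rw [hαt]; nlinarith
      · refine ⟨⟨-(δ / 2), ?_, ?_⟩, ⟨δ / 2, ?_, ?_⟩⟩
        · rw [abs_neg, abs_of_pos (by linarith)]; linarith
        · rw [hαt]; nlinarith
        · rw [abs_of_pos (by linarith)]; linarith
        · rw [hαt]; nlinarith) (fun p w hp hw h0 => hstr p w hp hw h0)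
  obtain ⟨δ, hδ, hn⟩ := Metric.eventually_nhds_iff.1 hn
  -- the linear form
  have hnv : ⟪(n : E), v₀⟫ = 0 := by rw [real_inner_comm]; exact hmem n
  set ν : E →ₗ[ℝ] ℝ := (F v₀ / ‖v₀‖ ^ 2) • (innerₗ E v₀) + innerₗ E (n : E) with hν
  have hνz : ∀ z, ν z = F v₀ * (⟪v₀, z⟫ / ‖v₀‖ ^ 2) + ⟪(n : E), z⟫ := by
    intro z
    rw [hν]
    simp only [LinearMap.add_apply, LinearMap.smul_apply, innerₗ_apply_apply, smul_eq_mul]
    ring
  have hvpos : 0 < ‖v₀‖ ^ 2 := by positivity
  have hev : ∀ᶠ z in 𝓝 v₀, (0 < ⟪v₀, z⟫ / ‖v₀‖ ^ 2 ∧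
      dist ((⟪v₀, z⟫ / ‖v₀‖ ^ 2)⁻¹ • z - v₀) 0 < δ) ∧ z ∈ Metric.ball v₀ ε := by
    have c0 : ContinuousAt (fun z : E => ⟪v₀, z⟫ / ‖v₀‖ ^ 2) v₀ := by
      have : Continuous fun z : E => ⟪v₀, z⟫ / ‖v₀‖ ^ 2 := by fun_prop
      exact this.continuousAt
    have hval : ⟪v₀, v₀⟫ / ‖v₀‖ ^ 2 = 1 := by
      rw [real_inner_self_eq_norm_sq, div_self hvn]
    have c1 : ContinuousAt (fun z : E => dist ((⟪v₀, z⟫ / ‖v₀‖ ^ 2)⁻¹ • z - v₀) 0) v₀ := by
      have h1 : ContinuousAt (fun z : E => (⟪v₀, z⟫ / ‖v₀‖ ^ 2)⁻¹ • z - v₀) v₀ :=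
        ((c0.inv₀ (by rw [hval]; exact one_ne_zero)).smul continuousAt_id).sub continuousAt_const
      exact h1.dist continuousAt_const
    refine ((ContinuousAt.eventually_lt continuousAt_const c0 ?_).and
      (ContinuousAt.eventually_lt c1 continuousAt_const ?_)).and (Metric.ball_mem_nhds v₀ hε)
    · rw [hval]; exact one_pos
    · rw [hval, inv_one, one_smul, sub_self, dist_self]; exact hδ
  have hlin : ∀ᶠ z in 𝓝 v₀, F z = ν z ∧ G z = ν z := by
    filter_upwards [hev] with z hz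
    obtain ⟨⟨hz1, hz2⟩, hz3⟩ := hz
    have hFz : F z = ν z := by
      set e : ℝ := ⟪v₀, z⟫ / ‖v₀‖ ^ 2 with he
      have hxX : e⁻¹ • z - v₀ ∈ X := by
        rw [hX, inner_sub_right, inner_smul_right, real_inner_self_eq_norm_sq, he]
        have h5 : ⟪v₀, z⟫ ≠ 0 := by
          intro h6; rw [h6, zero_div] at he; exact hz1.ne' he
        field_simp
        ring
      have h1 := hn (y := ⟨e⁻¹ • z - v₀, hxX⟩) hz2
      simp only [Submodule.coe_zero, add_zero, add_sub_cancel, Submodule.coe_inner] at h1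
      rw [hF.hom _ _ (inv_nonneg.2 hz1.le), inner_sub_right, inner_smul_right, hnv, sub_zero] at h1
      rw [hνz, ← he]
      field_simp at h1
      linarith
    exact ⟨hFz, by rw [← hFG z hz3]; exact hFz⟩
  obtain ⟨ε', hε', hlin⟩ := Metric.eventually_nhds_iff.1 hlin
  exact hE E F G hF hG hP h3 c₀ ν v₀ ε' hc₀ hv₀ hε' (fun z hz => hlin hz)
    (hctr v₀ (Metric.mem_ball_self hε))

end Pool.Agent.H91.Star
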