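import Pool.Agent.H63.Star.Iface2

/-!
# Self-similarity (module C1 of MP_bd4439_gt)
-/

namespace Pool.Agent.H91.Star

open Set Filter Topology
open Pool.Agent.H63.Star
open scoped RealInnerProductSpace

lemma window {A : Set ℝ} {κ T : ℝ} (hκ : 0 < κ)
    (hcomp : ∀ a b : ℝ, 0 < a → IsCompact (A ∩ Icc a b)) (hT : ∀ t ∈ A, 0 < t ∧ t ≤ T)
    (h1 : ∀ t ∈ A, ∃ s ∈ A, κ * t ≤ s ∧ s < t)
    (h2 : ∀ t ∈ A, t / κ ≤ T → ∃ s ∈ A, t < s ∧ s ≤ t / κ)
    {t₀ τ : ℝ} (ht₀ : t₀ ∈ A) (hτ : 0 < τ) (hτT : τ ≤ T) : ∃ s ∈ A, κ * τ ≤ s ∧ s ≤ τ := by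
  have ht₀0 := (hT t₀ ht₀).1
  rcases le_or_gt τ t₀ with h | h
  · -- minimal element above τ
    obtain ⟨s, hs, hmin⟩ := (hcomp τ t₀ hτ).exists_isLeast ⟨t₀, ht₀, h, le_rfl⟩
    rcases hs.2.1.eq_or_lt with h3 | h3
    · refine ⟨s, hs.1, ?_, h3.ge⟩
      obtain ⟨s', hs', h4, h5⟩ := h1 s hs.1
      rw [h3]
      linarith
    · obtain ⟨s', hs', h4, h5⟩ := h1 s hs.1
      refine ⟨s', hs', ?_, ?_⟩
      · have : κ * τ ≤ κ * s := by gcongr
        linarith
      · by_contra hcon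
        push Not at hcon
        have := hmin ⟨hs', hcon.le, h5.le.trans hs.2.2⟩
        linarith
  · obtain ⟨s, hs, hmax⟩ := (hcomp t₀ τ ht₀0).exists_isGreatest ⟨t₀, ht₀, le_rfl, h.le⟩
    refine ⟨s, hs.1, ?_, hs.2.2⟩
    by_contra hcon
    push Not at hcon
    have h3 : s / κ ≤ τ := by
      rw [div_le_iff₀ hκ]; linarith
    obtain ⟨s', hs', h4, h5⟩ := h2 s hs.1 (h3.trans hτT)
    have := hmax ⟨hs', hs.2.1.trans h4.le, h5.trans h3⟩
    linarith

section

variable {E : Type} [NormedAddCommGroup E] [InnerProductSpace ℝ E] [FiniteDimensional ℝ E]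
  {F G : E → ℝ}

omit [FiniteDimensional ℝ E] in
lemma indep_of_notMem {X : Submodule ℝ E} {q w : E} (hq : q ∉ X) (hw : w ∈ X) (hw0 : w ≠ 0) :
    LinearIndependent ℝ ![q, w] := by
  rw [LinearIndependent.pair_iff]
  intro s t hst
  have hs : s = 0 := by
    by_contra hs
    apply hq
    have h1 : s • q = -(t • w) := eq_neg_of_add_eq_zero_left hst
    have h2 : q = s⁻¹ • (s • q) := by rw [smul_smul, inv_mul_cancel₀ hs, one_smul]
    rw [h2, h1]
    exact X.smul_mem _ (X.neg_mem (X.smul_mem _ hw))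
  subst hs
  rw [zero_smul, zero_add, smul_eq_zero] at hst
  exact ⟨rfl, hst.resolve_right hw0⟩

omit [FiniteDimensional ℝ E] in
lemma add_notMem {X : Submodule ℝ E} {v p : E} (hv : v ∉ X) (hp : p ∈ X) : v + p ∉ X := by
  intro h
  apply hv
  have := X.sub_mem h hp
  rwa [add_sub_cancel_right] at this

omit [FiniteDimensional ℝ E] in
lemma selfsim_aux (hF : IsGauge F) (hG : IsGauge G) (hP : Planar F G) {v₀ : E}
    {X : Submodule ℝ E} {ε : ℝ} (hv : v₀ ∉ X) (hε : 0 < ε)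
    (hFG : ∀ z ∈ Metric.ball v₀ ε, F z = G z) (hlt : G (-v₀) < F (-v₀)) :
    ∃ ρ κ τ₀ : ℝ, 0 < ρ ∧ 0 < κ ∧ κ ≤ 1 ∧ 0 < τ₀ ∧ ρ + τ₀ < ε ∧
      ∀ p ∈ X, ‖p‖ < ρ → ∀ w ∈ X, w ≠ 0 → Cen F G (v₀ + p) w →
      ∀ t τ : ℝ, 0 < t → 0 < τ → t * ‖w‖ ≤ τ₀ → τ * ‖w‖ ≤ τ₀ →
      ∃ t' : ℝ, κ * τ ≤ t' ∧ t' ≤ τ ∧
        (F (v₀ + p + t' • w) - F (v₀ + p)) / t' = (F (v₀ + p + t • w) - F (v₀ + p)) / t := by
  have hv0 : v₀ ≠ 0 := by
    rintro rfl; exact hv X.zero_mem
  have hnv : -v₀ ≠ 0 := neg_ne_zero.2 hv0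
  have hFn := hF.pos _ hnv
  have hGn := hG.pos _ hnv
  have hGv := hG.pos _ hv0
  have hFv := hF.pos _ hv0
  have hFGv : F v₀ = G v₀ := hFG v₀ (Metric.mem_ball_self hε)
  have hFc := hF.cont
  have hGc := hG.cont
  obtain ⟨a, ha⟩ : ∃ a : E → ℝ, ∀ q, a q = (1 - G (-q) / F (-q)) / (G q + G (-q)) :=
    ⟨_, fun _ => rfl⟩
  have haeq : a = fun q => (1 - G (-q) / F (-q)) / (G q + G (-q)) := funext ha
  obtain ⟨L, hL⟩ : ∃ L : E → ℝ, ∀ q, L q = 1 - a q * G q := ⟨_, fun _ => rfl⟩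
  have hLeq : L = fun q => 1 - a q * G q := funext hL
  have ha0 : 0 < a v₀ := by
    rw [ha]
    refine div_pos ?_ (by positivity)
    rw [sub_pos, div_lt_one hFn]; exact hlt
  have hL0 : 0 < L v₀ := by
    have : L v₀ = a v₀ * G (-v₀) + G (-v₀) / F (-v₀) := by
      have h1 : a v₀ * (G v₀ + G (-v₀)) = 1 - G (-v₀) / F (-v₀) := by
        rw [ha]; exact div_mul_cancel₀ _ (by positivity)
      rw [hL]; linarith
    rw [this]; positivity
  have hL1 : L v₀ < 1 := by rw [hL]; nlinarith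
  have hca : ContinuousAt a v₀ := by
    rw [haeq]
    refine ContinuousAt.div ?_ (by fun_prop) (by positivity)
    exact continuousAt_const.sub (ContinuousAt.div (by fun_prop) (by fun_prop) hFn.ne')
  have hcL : ContinuousAt L v₀ := by
    rw [hLeq]
    exact continuousAt_const.sub (hca.mul (by fun_prop))
  set κ : ℝ := L v₀ / 2 with hκ
  have hκ0 : 0 < κ := by rw [hκ]; positivity
  have hκ1 : κ ≤ 1 := by rw [hκ]; linarith
  have hsum : F v₀ * a v₀ + L v₀ = 1 := by rw [hL, hFGv]; ring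
  -- continuity of the conditions
  have c1 : ContinuousAt (fun z : E × E => a z.1) (v₀, v₀) :=
    ContinuousAt.comp (f := fun z : E × E => z.1) (g := a) hca continuousAt_fst
  have c2 : ContinuousAt (fun z : E × E => L z.1) (v₀, v₀) :=
    ContinuousAt.comp (f := fun z : E × E => z.1) (g := L) hcL continuousAt_fst
  have c3 : ContinuousAt (fun z : E × E => F z.2) (v₀, v₀) := by fun_prop
  have hev : ∀ᶠ z : E × E in 𝓝 (v₀, v₀), (0 < a z.1 ∧ 0 < L z.1) ∧
      κ * (F z.2 * a z.1 + L z.1) < L z.1 ∧ κ < 1 - F z.2 * a z.1 := by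
    refine ((continuousAt_const.eventually_lt c1 ha0).and
      (continuousAt_const.eventually_lt c2 hL0)).and
      ((ContinuousAt.eventually_lt (continuousAt_const.mul ((c3.mul c1).add c2)) c2 ?_).and
        (ContinuousAt.eventually_lt continuousAt_const (continuousAt_const.sub (c3.mul c1)) ?_))
    · show κ * (F v₀ * a v₀ + L v₀) < L v₀
      rw [hsum]; linarith
    · show κ < 1 - F v₀ * a v₀
      linarith
  obtain ⟨δ₀, hδ₀, hev⟩ := Metric.eventually_nhds_iff.1 hev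
  set δ : ℝ := min δ₀ ε with hδ
  have hδ0 : 0 < δ := lt_min hδ₀ hε
  have hδε : δ ≤ ε := min_le_right _ _
  have hδδ : δ ≤ δ₀ := min_le_left _ _
  refine ⟨δ / 2, κ, δ / 3, by positivity, hκ0, hκ1, by positivity, by linarith, ?_⟩
  intro p hp hpρ w hw hw0 hcen t τ ht hτ htw hτw
  set q : E := v₀ + p with hq
  have hqX : q ∉ X := add_notMem hv hp
  have hq0 : q ≠ 0 := by
    intro h; apply hqX; rw [h]; exact X.zero_mem
  have hw0' : 0 < ‖w‖ := norm_pos_iff.2 hw0
  have hqd : dist q v₀ < δ / 2 := by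
    rw [hq, dist_eq_norm, add_sub_cancel_left]; exact hpρ
  have hzd : ∀ s : ℝ, 0 < s → s * ‖w‖ ≤ δ / 3 → dist (q + s • w) v₀ < δ := by
    intro s hs hsw
    calc dist (q + s • w) v₀ ≤ dist (q + s • w) q + dist q v₀ := dist_triangle _ _ _
      _ < δ := by
        rw [dist_eq_norm, add_sub_cancel_left, norm_smul, Real.norm_of_nonneg hs.le]
        linarith
  have hFGq : F q = G q := hFG q (by rw [Metric.mem_ball]; linarith)
  have hind := indep_of_notMem hqX hw hw0
  obtain ⟨c, hc⟩ := hcen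
  have hrel := hP.rel hind
  rw [hc] at hrel
  set l := rat F G q w with hl
  have hqS : q ∈ Submodule.span ℝ {q, w} := Submodule.subset_span (by simp)
  have hwS : w ∈ Submodule.span ℝ {q, w} := Submodule.subset_span (by simp)
  obtain ⟨d1, d2⟩ := hrel.cen_data hF hG hq0 hqS
  have hFq := hF.pos q hq0
  have hGq := hG.pos q hq0
  have hGnq := hG.pos (-q) (neg_ne_zero.2 hq0)
  have hFnq := hF.pos (-q) (neg_ne_zero.2 hq0)
  rw [hFGq, div_self hGq.ne'] at d1
  have hca' : c = a q := by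
    rw [ha, eq_div_iff (by positivity)]
    linarith
  have hla : l = L q := by rw [hL, ← hca']; linarith
  have hl0 : 0 < l := hrel.2.1
  obtain ⟨A, hA⟩ : ∃ A : Set ℝ, A = {s | (0 < s ∧ s * ‖w‖ ≤ δ / 3) ∧
      (F (q + s • w) - F q) / s = (F (q + t • w) - F q) / t} := ⟨_, rfl⟩
  have hAmem : ∀ s, s ∈ A ↔ (0 < s ∧ s * ‖w‖ ≤ δ / 3) ∧
      (F (q + s • w) - F q) / s = (F (q + t • w) - F q) / t := by intro s; rw [hA]; rfl
  have hcond : ∀ s ∈ A, (0 < c ∧ 0 < l) ∧ κ * (F (q + s • w) * c + l) < l ∧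
      κ < 1 - F (q + s • w) * c := by
    intro s hs
    rw [hAmem] at hs
    have := hev (y := (q, q + s • w)) (by
      rw [Prod.dist_eq]
      exact max_lt (by linarith) (by linarith [hzd s hs.1.1 hs.1.2]))
    rw [hca', hla]
    exact this
  have hfG : ∀ s : ℝ, 0 < s → s * ‖w‖ ≤ δ / 3 → F (q + s • w) = G (q + s • w) := by
    intro s hs hsw
    exact hFG _ (by rw [Metric.mem_ball]; linarith [hzd s hs hsw])
  have hzpos : ∀ s : ℝ, 0 < F (q + s • w) := by
    intro s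
    apply hF.pos
    intro h
    have := LinearIndependent.pair_iff.1 hind 1 s (by rw [one_smul]; exact h)
    exact one_ne_zero this.1
  suffices hwin : ∃ s ∈ A, κ * τ ≤ s ∧ s ≤ τ by
    obtain ⟨s, hs, hs1, hs2⟩ := hwin
    exact ⟨s, hs1, hs2, ((hAmem s).1 hs).2⟩
  refine window (A := A) (κ := κ) (T := δ / 3 / ‖w‖) hκ0 ?_ ?_ ?_ ?_
    (t₀ := t) (τ := τ) ?_ hτ ?_
  · intro x y hx
    have hcQ : ContinuousOn (fun s : ℝ => (F (q + s • w) - F q) / s) (Icc x y) := by
      refine ContinuousOn.div (by fun_prop) (by fun_prop) ?_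
      intro s hs
      have := hs.1
      have : 0 < s := by linarith
      exact this.ne'
    have hcl : IsClosed (Icc x y ∩ (fun s : ℝ => (F (q + s • w) - F q) / s) ⁻¹'
        {(F (q + t • w) - F q) / t}) :=
      hcQ.preimage_isClosed_of_isClosed isClosed_Icc isClosed_singleton
    have hcl2 : IsClosed {s : ℝ | s * ‖w‖ ≤ δ / 3} :=
      isClosed_le (by fun_prop) (by fun_prop)
    have heq : A ∩ Icc x y = (Icc x y ∩ (fun s : ℝ => (F (q + s • w) - F q) / s) ⁻¹'
        {(F (q + t • w) - F q) / t}) ∩ {s : ℝ | s * ‖w‖ ≤ δ / 3} := by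
      ext s
      simp only [mem_inter_iff, hAmem, mem_preimage, mem_singleton_iff, Set.mem_ofPred_eq]
      constructor
      · rintro ⟨⟨⟨h1, h2⟩, h3⟩, h4⟩
        exact ⟨⟨h4, h3⟩, h2⟩
      · rintro ⟨⟨h4, h3⟩, h2⟩
        exact ⟨⟨⟨by linarith [h4.1], h2⟩, h3⟩, h4⟩
    rw [heq]
    exact isCompact_Icc.of_isClosed_subset (hcl.inter hcl2)
      (inter_subset_left.trans inter_subset_left)
  · intro s hs
    rw [hAmem] at hs
    refine ⟨hs.1.1, ?_⟩
    rw [le_div_iff₀ hw0']; exact hs.1.2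
  · -- forward
    intro s hs
    obtain ⟨⟨g1, g2⟩, g3, g4⟩ := hcond s hs
    rw [hAmem] at hs
    obtain ⟨⟨hs0, hsw⟩, hsQ⟩ := hs
    set f := F (q + s • w) with hf
    have hf0 : 0 < f := hzpos s
    have hN : 0 < f * c + l := by positivity
    have hmap := hrel.map hF hG (z := q + s • w)
      (Submodule.add_mem _ hqS (Submodule.smul_mem _ _ hwS))
    rw [← hfG s hs0 hsw, ← hf] at hmap
    have e1 : f • c • q + l • (q + s • w) = (f * c + l) • (q + (l * s / (f * c + l)) • w) := by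
      rw [smul_add (f * c + l), smul_smul (f * c + l), mul_div_cancel₀ _ hN.ne']
      module
    rw [e1, hF.hom _ _ hN.le] at hmap
    have e2 : F (q + (l * s / (f * c + l)) • w) = f / (f * c + l) := by
      rw [eq_div_iff hN.ne']; linarith
    have hst : l * s / (f * c + l) < s := by
      rw [div_lt_iff₀ hN]
      nlinarith [mul_pos (mul_pos hf0 g1) hs0]
    refine ⟨l * s / (f * c + l), ?_, ?_, hst⟩
    · rw [hAmem]
      refine ⟨⟨by positivity, ?_⟩, ?_⟩
      · refine le_trans ?_ hsw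
        gcongr
      · rw [← hsQ, e2]
        have hls : l * s ≠ 0 := by positivity
        have hF1 : F q * c = 1 - l := by rw [hFGq]; linarith
        field_simp
        rw [hf] at *
        linear_combination (-(F (q + s • w))) * hF1
    · rw [le_div_iff₀ hN]
      nlinarith
  · -- backward
    intro s hs hsκ
    obtain ⟨⟨g1, g2⟩, g3, g4⟩ := hcond s hs
    rw [hAmem] at hs
    obtain ⟨⟨hs0, hsw⟩, hsQ⟩ := hs
    set f := F (q + s • w) with hf
    have hf0 : 0 < f := hzpos s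
    have hN : 0 < 1 - f * c := by linarith
    have hmap := hrel.symm.map hG hF (z := q + s • w)
      (Submodule.add_mem _ hqS (Submodule.smul_mem _ _ hwS))
    rw [← hf] at hmap
    have e1 : f • (-(l⁻¹ • c • q)) + l⁻¹ • (q + s • w) =
        ((1 - f * c) / l) • (q + (s / (1 - f * c)) • w) := by
      rw [smul_add ((1 - f * c) / l), smul_smul ((1 - f * c) / l),
        show (1 - f * c) / l * (s / (1 - f * c)) = l⁻¹ * s by field_simp]
      module
    rw [e1, hG.hom _ _ (by positivity)] at hmap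
    have e2 : G (q + (s / (1 - f * c)) • w) = l * f / (1 - f * c) := by
      rw [eq_div_iff hN.ne']
      field_simp at hmap
      linarith
    have hle : s / (1 - f * c) ≤ s / κ := by gcongr
    have hsm : s / (1 - f * c) * ‖w‖ ≤ δ / 3 := by
      have h1 : s / κ * ‖w‖ ≤ δ / 3 := by
        rwa [le_div_iff₀ hw0'] at hsκ
      refine le_trans ?_ h1
      gcongr
    refine ⟨s / (1 - f * c), ?_, ?_, hle⟩
    · rw [hAmem]
      refine ⟨⟨by positivity, hsm⟩, ?_⟩
      rw [← hsQ, hfG _ (by positivity) hsm, e2]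
      have hF1 : F q * c = 1 - l := by rw [hFGq]; linarith
      field_simp
      rw [hf] at *
      linear_combination (F (q + s • w)) * hF1
    · rw [lt_div_iff₀ hN]
      nlinarith [mul_pos (mul_pos hf0 g1) hs0]
  · rw [hAmem]
    exact ⟨⟨ht, htw⟩, rfl⟩
  · rw [le_div_iff₀ hw0']; exact hτw

end

/-- **Module C1.** -/
theorem selfSim : SelfSimStmt := by
  intro E _ _ _ F G hF hG hP v₀ X ε hv hε hFG hctr
  have hv0 : v₀ ≠ 0 := by
    rintro rfl; exact hv X.zero_mem
  rcases lt_trichotomy (G (-v₀)) (F (-v₀)) with h | h | h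
  · obtain ⟨ρ, κ, τ₀, h1, h2, h3, h4, h5, h6⟩ := selfsim_aux hF hG hP hv hε hFG h
    exact ⟨ρ, κ, τ₀, h1, h2, h3, h4, h6⟩
  · -- no centred planes near v₀
    have hnone : ∃ ρ > 0, ∀ p ∈ X, ‖p‖ < ρ → ∀ w ∈ X, w ≠ 0 → ¬ Cen F G (v₀ + p) w := by
      by_contra hcon
      push Not at hcon
      have hseq : ∀ n : ℕ, ∃ p ∈ X, ‖p‖ < 1 / ((n : ℝ) + 1) ∧ ∃ w ∈ X, ‖w‖ = 1 ∧
          Cen F G (v₀ + p) w := by
        intro n
        obtain ⟨p, hp, hpn, w, hw, hw0, hc⟩ := hcon (1 / ((n : ℝ) + 1)) (by positivity)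
        have hwn : ‖w‖ ≠ 0 := norm_ne_zero_iff.2 hw0
        refine ⟨p, hp, hpn, ‖w‖⁻¹ • w, X.smul_mem _ hw, ?_, hc.smul_right (inv_ne_zero hwn)⟩
        rw [norm_smul, norm_inv, norm_norm, inv_mul_cancel₀ hwn]
      choose p hp hpn w hw hwn hc using hseq
      obtain ⟨U, hUle⟩ : ∃ U : Ultrafilter ℕ, (U : Filter ℕ) ≤ atTop :=
        ⟨hyperfilter ℕ, Nat.hyperfilter_le_atTop⟩
      obtain ⟨w', hw', hlim⟩ := (isCompact_sphere (0 : E) 1).ultrafilter_le_nhds (U.map w)
        (by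
          rw [le_principal_iff, Ultrafilter.coe_map]
          refine Filter.mem_map.2 (Filter.univ_mem' fun n => ?_)
          simpa using hwn n)
      have hlim' : Tendsto w U (𝓝 w') := hlim
      have hw'X : w' ∈ X := by
        have hcl : IsClosed (X : Set E) := Submodule.closed_of_finiteDimensional X
        exact hcl.mem_of_tendsto hlim' (Filter.Eventually.of_forall hw)
      have hw'0 : w' ≠ 0 := by
        rintro rfl
        simp at hw'
      have hp0 : Tendsto p U (𝓝 0) := by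
        have : Tendsto p atTop (𝓝 0) := by
          rw [tendsto_zero_iff_norm_tendsto_zero]
          exact squeeze_zero (fun n => norm_nonneg _) (fun n => (hpn n).le)
            tendsto_one_div_add_atTop_nhds_zero_nat
        exact this.mono_left hUle
      have hvp : Tendsto (fun n => v₀ + p n) U (𝓝 v₀) := by
        have := (tendsto_const_nhds (x := v₀) (f := (U : Filter ℕ))).add hp0
        simpa using this
      have hind := indep_of_notMem hv hw'X hw'0
      have hcen := Cen.of_tendsto hP hF hG hind hvp hlim'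
        (Filter.Eventually.of_forall hc).frequently
      obtain ⟨c, hc'⟩ := hcen
      have hrel := hP.rel hind
      rw [hc'] at hrel
      have hFGv : F v₀ = G v₀ := hFG v₀ (Metric.mem_ball_self hε)
      have hGv := hG.pos v₀ hv0
      have hGn := hG.pos (-v₀) (neg_ne_zero.2 hv0)
      have hz := hrel.cen_zero hF hG hv0 (Submodule.subset_span (by simp)) (by
        rw [hFGv, ← h, div_self hGv.ne', div_self hGn.ne'])
      apply hctr v₀ (Metric.mem_ball_self hε) w' hind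
      rw [hc', hz, zero_smul]
    obtain ⟨ρ, hρ, hnone⟩ := hnone
    exact ⟨ρ, 1, 1, hρ, one_pos, le_rfl, one_pos, fun p hp hpρ w hw hw0 hc =>
      absurd hc (hnone p hp hpρ w hw hw0)⟩
  · obtain ⟨ρ, κ, τ₀, h1, h2, h3, h4, h5, h6⟩ := selfsim_aux hG hF hP.symm hv hε
      (fun z hz => (hFG z hz).symm) h
    refine ⟨ρ, κ, τ₀, h1, h2, h3, h4, ?_⟩
    intro p hp hpρ w hw hw0 hc t τ ht hτ htw hτw
    have hind := indep_of_notMem (add_notMem hv hp) hw hw0
    obtain ⟨t', g1, g2, g3⟩ := h6 p hp hpρ w hw hw0 (hc.symm hP hF hG hind) t τ ht hτ htw hτw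
    have hball : ∀ s : ℝ, 0 ≤ s → s * ‖w‖ ≤ τ₀ → F (v₀ + p + s • w) = G (v₀ + p + s • w) := by
      intro s hs hsw
      apply hFG
      rw [Metric.mem_ball, dist_eq_norm, add_assoc, add_sub_cancel_left]
      refine (norm_add_le _ _).trans_lt ?_
      rw [norm_smul, Real.norm_of_nonneg hs]
      linarith
    have ht' : 0 < t' := lt_of_lt_of_le (mul_pos h2 hτ) g1
    refine ⟨t', g1, g2, ?_⟩
    have e0 := hball 0 le_rfl (by rw [zero_mul]; exact h4.le)
    rw [zero_smul, add_zero] at e0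
    rw [hball t ht.le htw, hball t' ht'.le (by
      refine le_trans ?_ hτw
      gcongr), e0]
    exact g3

end Pool.Agent.H91.Star
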